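import Mathlib

set_option autoImplicit false
set_option maxSynthPendingDepth 5
set_option linter.unusedSectionVars false

namespace Pool.Agent.H19.Beurling

section Arens

/-- The second dual `A''` of a normed algebra `A`, to be given the first Arens product. -/
structure SecondDual (𝕜 : Type*) [NontriviallyNormedField 𝕜] (A : Type*) [NonUnitalNormedRing A]
    [NormedSpace 𝕜 A] where
  /-- the underlying bounded functional on `A'` -/
  toDual : StrongDual 𝕜 (StrongDual 𝕜 A)

variable {𝕜 : Type*} [NontriviallyNormedField 𝕜] {A : Type*} [NonUnitalNormedRing A]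
  [NormedSpace 𝕜 A]

instance : CoeFun (SecondDual 𝕜 A) (fun _ => StrongDual 𝕜 A → 𝕜) := ⟨fun Φ => Φ.toDual⟩

/-- `A''` is the dual of the Banach space `A'`. -/
def SecondDual.equiv : SecondDual 𝕜 A ≃ StrongDual 𝕜 (StrongDual 𝕜 A) :=
  ⟨SecondDual.toDual, SecondDual.mk, fun _ => rfl, fun _ => rfl⟩

noncomputable instance : AddCommGroup (SecondDual 𝕜 A) := SecondDual.equiv.addCommGroup

noncomputable instance : Module 𝕜 (SecondDual 𝕜 A) := SecondDual.equiv.module 𝕜

theorem SecondDual.ext {Φ Ψ : SecondDual 𝕜 A} (h : ∀ f : StrongDual 𝕜 A, Φ f = Ψ f) : Φ = Ψ :=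
  SecondDual.equiv.injective (ContinuousLinearMap.ext h)

theorem add_apply' (Φ Ψ : SecondDual 𝕜 A) (f : StrongDual 𝕜 A) : (Φ + Ψ) f = Φ f + Ψ f := rfl

theorem smul_apply' (c : 𝕜) (Φ : SecondDual 𝕜 A) (f : StrongDual 𝕜 A) : (c • Φ) f = c • Φ f := rfl

theorem zero_apply' (f : StrongDual 𝕜 A) : (0 : SecondDual 𝕜 A) f = 0 := rfl

theorem SecondDual.map_add (Φ : SecondDual 𝕜 A) (f g : StrongDual 𝕜 A) :
    Φ (f + g) = Φ f + Φ g := _root_.map_add Φ.toDual f g

theorem SecondDual.map_smul (Φ : SecondDual 𝕜 A) (c : 𝕜) (f : StrongDual 𝕜 A) :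
    Φ (c • f) = c • Φ f := _root_.map_smul Φ.toDual c f

theorem SecondDual.map_zero (Φ : SecondDual 𝕜 A) : Φ (0 : StrongDual 𝕜 A) = 0 :=
  _root_.map_zero Φ.toDual

variable [IsScalarTower 𝕜 A A] [SMulCommClass 𝕜 A A]

/-- For `f ∈ A'` and `a ∈ A`, the functional `f · a : b ↦ f (a b)`. -/
noncomputable def dualMul (f : StrongDual 𝕜 A) (a : A) : StrongDual 𝕜 A :=
  f.comp (ContinuousLinearMap.mul 𝕜 A a)

theorem dualMul_apply (f : StrongDual 𝕜 A) (a b : A) : dualMul f a b = f (a * b) := rfl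

theorem norm_dualMul_le (f : StrongDual 𝕜 A) (a : A) : ‖dualMul f a‖ ≤ ‖f‖ * ‖a‖ := by
  refine ContinuousLinearMap.opNorm_le_bound _ (by positivity) fun b => ?_
  rw [dualMul_apply, mul_assoc]
  exact (f.le_opNorm _).trans (mul_le_mul_of_nonneg_left (norm_mul_le a b) (norm_nonneg _))

theorem dualMul_add_right (f : StrongDual 𝕜 A) (a b : A) :
    dualMul f (a + b) = dualMul f a + dualMul f b := by
  ext c
  rw [dualMul_apply, _root_.add_apply, dualMul_apply, dualMul_apply, add_mul, _root_.map_add]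

theorem dualMul_smul_right (f : StrongDual 𝕜 A) (c : 𝕜) (a : A) :
    dualMul f (c • a) = c • dualMul f a := by
  ext b
  rw [dualMul_apply, _root_.smul_apply, dualMul_apply, smul_mul_assoc, _root_.map_smul]

theorem dualMul_add_left (f g : StrongDual 𝕜 A) (a : A) :
    dualMul (f + g) a = dualMul f a + dualMul g a := rfl

theorem dualMul_smul_left (c : 𝕜) (f : StrongDual 𝕜 A) (a : A) :
    dualMul (c • f) a = c • dualMul f a := rfl

theorem bidual_add (Ψ : SecondDual 𝕜 A) (f : StrongDual 𝕜 A) (a b : A) :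
    Ψ (dualMul f (a + b)) = Ψ (dualMul f a) + Ψ (dualMul f b) := by
  rw [dualMul_add_right, SecondDual.map_add]

theorem bidual_smul (Ψ : SecondDual 𝕜 A) (f : StrongDual 𝕜 A) (c : 𝕜) (a : A) :
    Ψ (dualMul f (c • a)) = c • Ψ (dualMul f a) := by
  rw [dualMul_smul_right, SecondDual.map_smul]

theorem bidual_bound (Ψ : SecondDual 𝕜 A) (f : StrongDual 𝕜 A) (a : A) :
    ‖Ψ (dualMul f a)‖ ≤ ‖Ψ.toDual‖ * ‖f‖ * ‖a‖ := by
  rw [mul_assoc]
  exact (Ψ.toDual.le_opNorm _).trans
    (mul_le_mul_of_nonneg_left (norm_dualMul_le f a) (norm_nonneg _))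

/-- For `Ψ ∈ A''` and `f ∈ A'`, the functional `Ψ · f : a ↦ Ψ (f · a)` on `A`. -/
noncomputable def bidualMul (Ψ : SecondDual 𝕜 A) (f : StrongDual 𝕜 A) : StrongDual 𝕜 A :=
  LinearMap.mkContinuous
    { toFun := fun a => Ψ (dualMul f a)
      map_add' := bidual_add Ψ f
      map_smul' := bidual_smul Ψ f } (‖Ψ.toDual‖ * ‖f‖) (bidual_bound Ψ f)

theorem bidualMul_apply (Ψ : SecondDual 𝕜 A) (f : StrongDual 𝕜 A) (a : A) :
    bidualMul Ψ f a = Ψ (dualMul f a) := rfl

theorem norm_bidualMul_le (Ψ : SecondDual 𝕜 A) (f : StrongDual 𝕜 A) :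
    ‖bidualMul Ψ f‖ ≤ ‖Ψ.toDual‖ * ‖f‖ :=
  LinearMap.mkContinuous_norm_le _ (by positivity) _

theorem bidualMul_add_right (Ψ : SecondDual 𝕜 A) (f g : StrongDual 𝕜 A) :
    bidualMul Ψ (f + g) = bidualMul Ψ f + bidualMul Ψ g := by
  ext a
  rw [_root_.add_apply, bidualMul_apply, bidualMul_apply, bidualMul_apply, dualMul_add_left,
    SecondDual.map_add]

theorem bidualMul_smul_right (Ψ : SecondDual 𝕜 A) (c : 𝕜) (f : StrongDual 𝕜 A) :
    bidualMul Ψ (c • f) = c • bidualMul Ψ f := by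
  ext a
  rw [_root_.smul_apply, bidualMul_apply, bidualMul_apply, dualMul_smul_left, SecondDual.map_smul]

theorem arens_add (Φ Ψ : SecondDual 𝕜 A) (f g : StrongDual 𝕜 A) :
    Φ (bidualMul Ψ (f + g)) = Φ (bidualMul Ψ f) + Φ (bidualMul Ψ g) := by
  rw [bidualMul_add_right, SecondDual.map_add]

theorem arens_smul (Φ Ψ : SecondDual 𝕜 A) (c : 𝕜) (f : StrongDual 𝕜 A) :
    Φ (bidualMul Ψ (c • f)) = c • Φ (bidualMul Ψ f) := by
  rw [bidualMul_smul_right, SecondDual.map_smul]

theorem arens_bound (Φ Ψ : SecondDual 𝕜 A) (f : StrongDual 𝕜 A) :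
    ‖Φ (bidualMul Ψ f)‖ ≤ ‖Φ.toDual‖ * ‖Ψ.toDual‖ * ‖f‖ := by
  rw [mul_assoc]
  exact (Φ.toDual.le_opNorm _).trans
    (mul_le_mul_of_nonneg_left (norm_bidualMul_le Ψ f) (norm_nonneg _))

/-- The first Arens product of `Φ, Ψ ∈ A''`: the functional `f ↦ Φ (Ψ · f)` on `A'`. -/
noncomputable def arens (Φ Ψ : SecondDual 𝕜 A) : SecondDual 𝕜 A where
  toDual := LinearMap.mkContinuous
    { toFun := fun f => Φ (bidualMul Ψ f)
      map_add' := arens_add Φ Ψ
      map_smul' := arens_smul Φ Ψ } (‖Φ.toDual‖ * ‖Ψ.toDual‖) (arens_bound Φ Ψ)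

noncomputable instance : Mul (SecondDual 𝕜 A) := ⟨arens⟩

theorem mul_apply (Φ Ψ : SecondDual 𝕜 A) (f : StrongDual 𝕜 A) :
    (Φ * Ψ) f = Φ (bidualMul Ψ f) := rfl

theorem bidualMul_mul (Ψ Θ : SecondDual 𝕜 A) (f : StrongDual 𝕜 A) :
    bidualMul (Ψ * Θ) f = bidualMul Ψ (bidualMul Θ f) := by
  ext a
  rw [bidualMul_apply, bidualMul_apply, mul_apply]
  congr 1
  ext b
  rw [bidualMul_apply, dualMul_apply, bidualMul_apply]
  congr 1
  ext c
  simp only [dualMul_apply, mul_assoc]

theorem bidualMul_add (Ψ Θ : SecondDual 𝕜 A) (f : StrongDual 𝕜 A) :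
    bidualMul (Ψ + Θ) f = bidualMul Ψ f + bidualMul Θ f := by
  ext a; rfl

theorem bidualMul_smul (c : 𝕜) (Ψ : SecondDual 𝕜 A) (f : StrongDual 𝕜 A) :
    bidualMul (c • Ψ) f = c • bidualMul Ψ f := by
  ext a; rfl

theorem bidualMul_zero (f : StrongDual 𝕜 A) :
    bidualMul (0 : SecondDual 𝕜 A) f = 0 := by
  ext a; rfl

theorem arens_assoc (Φ Ψ Θ : SecondDual 𝕜 A) : Φ * Ψ * Θ = Φ * (Ψ * Θ) :=
  SecondDual.ext fun f => by rw [mul_apply, mul_apply, mul_apply, bidualMul_mul]

theorem arens_left_distrib (Φ Ψ Θ : SecondDual 𝕜 A) : Φ * (Ψ + Θ) = Φ * Ψ + Φ * Θ :=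
  SecondDual.ext fun f => by
    rw [mul_apply, bidualMul_add, SecondDual.map_add]; rfl

theorem arens_right_distrib (Φ Ψ Θ : SecondDual 𝕜 A) : (Φ + Ψ) * Θ = Φ * Θ + Ψ * Θ :=
  SecondDual.ext fun _ => rfl

theorem arens_zero_mul (Φ : SecondDual 𝕜 A) : 0 * Φ = 0 := SecondDual.ext fun _ => rfl

theorem arens_mul_zero (Φ : SecondDual 𝕜 A) : Φ * 0 = 0 :=
  SecondDual.ext fun f => by
    rw [mul_apply, bidualMul_zero, SecondDual.map_zero]; rfl

/-- `A''` with the first Arens product is a ring. -/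
noncomputable instance : NonUnitalRing (SecondDual 𝕜 A) :=
  { (inferInstance : AddCommGroup (SecondDual 𝕜 A)) with
    mul := (· * ·)
    left_distrib := arens_left_distrib
    right_distrib := arens_right_distrib
    zero_mul := arens_zero_mul
    mul_zero := arens_mul_zero
    mul_assoc := arens_assoc }

instance : IsScalarTower 𝕜 (SecondDual 𝕜 A) (SecondDual 𝕜 A) :=
  ⟨fun _ _ _ => SecondDual.ext fun _ => rfl⟩

instance : SMulCommClass 𝕜 (SecondDual 𝕜 A) (SecondDual 𝕜 A) :=
  ⟨fun c Φ Ψ => SecondDual.ext fun f => by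
    change c • ((Φ * Ψ) f) = (Φ * (c • Ψ)) f
    rw [mul_apply, mul_apply, bidualMul_smul, SecondDual.map_smul]⟩

end Arens

section Radical

variable (𝕜 : Type*) [Field 𝕜] (B : Type*) [NonUnitalRing B] [Module 𝕜 B]

/-- `M` is a maximal modular left ideal of the (not necessarily unital) algebra `B`: a proper left
ideal, modular in the sense that there is `u` with `b - b u ∈ M` for all `b`, and maximal among
the proper left ideals. -/
structure IsMaximalModularLeftIdeal (M : Submodule 𝕜 B) : Prop where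
  mul_mem : ∀ b : B, ∀ x ∈ M, b * x ∈ M
  modular : ∃ u : B, ∀ b : B, b - b * u ∈ M
  ne_top : M ≠ ⊤
  maximal : ∀ N : Submodule 𝕜 B, (∀ b : B, ∀ x ∈ N, b * x ∈ N) → M ≤ N → N ≠ ⊤ → N = M

/-- The Jacobson radical of an algebra `B`: the intersection of the maximal modular left ideals
(so `B` itself if there are none). -/
def radical : Submodule 𝕜 B := sInf {M | IsMaximalModularLeftIdeal 𝕜 B M}

/-- `B` is semisimple if its Jacobson radical is zero. -/
def IsSemisimple : Prop := radical 𝕜 B = ⊥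

variable {𝕜 B}

/-- An element `r` with `r r = 0` and `r b r = 0` for all `b` is in the radical. -/
theorem mem_radical [IsScalarTower 𝕜 B B] [SMulCommClass 𝕜 B B] {r : B} (h0 : r * r = 0)
    (h1 : ∀ b, r * b * r = 0) : r ∈ radical 𝕜 B := by
  rw [radical, Submodule.mem_sInf]
  intro M hM
  obtain ⟨u, hu⟩ := hM.modular
  by_contra hr
  -- the left ideal `L = B r + 𝕜 r`
  let L : Submodule 𝕜 B :=
    { carrier := {x | ∃ (b : B) (c : 𝕜), x = b * r + c • r}
      add_mem' := by
        rintro x y ⟨b, c, rfl⟩ ⟨b', c', rfl⟩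
        exact ⟨b + b', c + c', by rw [add_mul, add_smul]; abel⟩
      zero_mem' := ⟨0, 0, by simp⟩
      smul_mem' := by
        rintro d x ⟨b, c, rfl⟩
        exact ⟨d • b, d * c, by rw [smul_add, smul_mul_assoc, mul_smul]⟩ }
  have hLmul : ∀ b : B, ∀ x ∈ L, b * x ∈ L := by
    rintro b x ⟨b', c, rfl⟩
    exact ⟨b * b' + c • b, 0, by rw [mul_add, add_mul, mul_assoc, mul_smul_comm, smul_mul_assoc]; simp⟩
  have hLL : ∀ x ∈ L, ∀ y ∈ L, x * y = 0 := by
    rintro x ⟨b, c, rfl⟩ y ⟨b', c', rfl⟩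
    have e1 : r * (b' * r) = 0 := by rw [← mul_assoc]; exact h1 b'
    rw [mul_add, add_mul, add_mul, mul_assoc b r, e1, smul_mul_assoc, e1, mul_smul_comm,
      mul_smul_comm, mul_assoc b r r, h0, smul_mul_assoc, h0]
    simp
  have htop : M ⊔ L = ⊤ := by
    by_contra hne
    have h2 : ∀ b : B, ∀ x ∈ M ⊔ L, b * x ∈ M ⊔ L := by
      intro b x hx
      obtain ⟨m, hm, l, hl, rfl⟩ := Submodule.mem_sup.1 hx
      rw [mul_add]
      exact Submodule.add_mem_sup (hM.mul_mem b m hm) (hLmul b l hl)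
    have h3 := hM.maximal (M ⊔ L) h2 le_sup_left hne
    apply hr
    rw [← h3]
    exact Submodule.mem_sup_right ⟨0, 1, by simp⟩
  obtain ⟨m, hm, l, hl, hml⟩ := Submodule.mem_sup.1 (show u ∈ M ⊔ L by rw [htop]; trivial)
  have hl' : l ∈ M := by
    have h2 := hu l
    rw [← hml, mul_add, hLL l hl l hl, add_zero] at h2
    have h3 := M.add_mem h2 (hM.mul_mem l m hm)
    rwa [sub_add_cancel] at h3
  have hu' : u ∈ M := by rw [← hml]; exact M.add_mem hm hl'
  apply hM.ne_top
  rw [eq_top_iff]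
  intro b _
  have h2 := M.add_mem (hu b) (hM.mul_mem b u hu')
  rwa [sub_add_cancel] at h2

/-- For unital algebras the radical is Mathlib's `Ring.jacobson`. -/
theorem radical_eq_jacobson (𝕜 : Type*) [Field 𝕜] (R : Type*) [Ring R] [Algebra 𝕜 R] :
    (radical 𝕜 R : Set R) = (Ring.jacobson R : Set R) := by
  ext x
  rw [radical, SetLike.mem_coe, SetLike.mem_coe, Submodule.mem_sInf,
    Ring.jacobson_eq_sInf_isMaximal, Ideal.mem_sInf]
  constructor
  · intro h I hI
    have hI' : I.IsMaximal := hI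
    have hmem : IsMaximalModularLeftIdeal 𝕜 R (I.restrictScalars 𝕜) :=
      { mul_mem := fun b x hx => I.mul_mem_left b hx
        modular := ⟨1, fun b => by simp⟩
        ne_top := fun h => hI'.ne_top (by
          rw [Ideal.eq_top_iff_one]
          have : (1 : R) ∈ I.restrictScalars 𝕜 := by rw [h]; trivial
          exact this)
        maximal := by
          intro N hN hle hne
          let J : Ideal R :=
            { carrier := N
              add_mem' := N.add_mem
              zero_mem' := N.zero_mem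
              smul_mem' := fun b x hx => hN b x hx }
          have hJ : J ≠ ⊤ := fun h => hne (by
            rw [eq_top_iff]
            intro y _
            have : y ∈ J := by rw [h]; trivial
            exact this)
          have := hI'.eq_of_le hJ (fun y hy => hle hy)
          ext y
          exact ⟨fun hy => by
            have h2 : y ∈ J := hy
            rw [← this] at h2
            exact h2, fun hy => hle hy⟩ }
    exact h _ hmem
  · intro h M hM
    let J : Ideal R :=
      { carrier := M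
        add_mem' := M.add_mem
        zero_mem' := M.zero_mem
        smul_mem' := fun b x hx => hM.mul_mem b x hx }
    have hJ : J.IsMaximal := by
      rw [Ideal.isMaximal_def]
      constructor
      · intro h2
        apply hM.ne_top
        rw [eq_top_iff]
        intro y _
        have : y ∈ J := by rw [h2]; trivial
        exact this
      · intro K hK
        by_contra hne
        have hKtop : K.restrictScalars 𝕜 ≠ ⊤ := fun h2 => hne (by
          rw [Ideal.eq_top_iff_one]
          have : (1 : R) ∈ K.restrictScalars 𝕜 := by rw [h2]; trivial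
          exact this)
        have := hM.maximal (K.restrictScalars 𝕜) (fun b x hx => K.mul_mem_left b hx)
          (fun y hy => hK.le hy) hKtop
        refine hK.not_ge fun y hy => ?_
        have h3 : y ∈ K.restrictScalars 𝕜 := hy
        rw [this] at h3
        exact h3
    exact h hJ

end Radical

end Pool.Agent.H19.Beurling
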