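import Mathlib

set_option autoImplicit false

open MeasureTheory Measure Set Filter Topology
open scoped ENNReal NNReal

namespace Pool.Agent.H19.Beurling

variable {α : Type*} [TopologicalSpace α] [R1Space α] [LocallyCompactSpace α] [MeasurableSpace α]
  [BorelSpace α]
variable {E : Type*} [NormedAddCommGroup E] [NormedSpace ℝ E] {μ : Measure α} [μ.Regular]

/-- Continuous compactly supported functions are dense in `L¹` of a regular measure on a locally
compact space (no normality assumption). -/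
theorem exists_cc_lintegral_sub_le {f : α → E} (hf : Integrable f μ) {ε : ℝ≥0∞} (hε : ε ≠ 0) :
    ∃ g : α → E, eLpNorm (f - g) 1 μ ≤ ε ∧ (Continuous g ∧ HasCompactSupport g) := by
  refine (memLp_one_iff_integrable.2 hf).induction_dense ENNReal.one_ne_top
    (fun g => Continuous g ∧ HasCompactSupport g) ?_ ?_ ?_ hε
  · intro c t ht hμt δ hδ
    -- choose η with 2 ‖c‖ η ≤ δ
    obtain ⟨η, hη0, hη⟩ : ∃ η : ℝ≥0∞, η ≠ 0 ∧ ‖c‖ₑ * (η + η) ≤ δ := by
      have h1 : Tendsto (fun η : ℝ≥0∞ => ‖c‖ₑ * (η + η)) (𝓝 0) (𝓝 (‖c‖ₑ * (0 + 0))) := by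
        refine ENNReal.Tendsto.const_mul (tendsto_id.add tendsto_id) (Or.inr enorm_ne_top)
      rw [add_zero, mul_zero] at h1
      have h2 : ∀ᶠ η in 𝓝 (0 : ℝ≥0∞), ‖c‖ₑ * (η + η) ≤ δ :=
        h1.eventually (Iic_mem_nhds (pos_iff_ne_zero.2 hδ))
      have h3 : ∀ᶠ η in 𝓝[>] (0 : ℝ≥0∞), ‖c‖ₑ * (η + η) ≤ δ := h2.filter_mono nhdsWithin_le_nhds
      obtain ⟨η, hη1, hη2⟩ := (h3.and self_mem_nhdsWithin).exists
      exact ⟨η, (ne_of_gt hη2), hη1⟩
    obtain ⟨s, st, s_compact, s_closed, μs⟩ := ht.exists_isCompact_isClosed_sdiff_lt hμt.ne hη0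
    obtain ⟨V, sV, V_open, hμV, hV⟩ :=
      s_closed.measurableSet.exists_isOpen_sdiff_lt ((measure_mono st).trans_lt hμt).ne hη0
    obtain ⟨φ, φ1, φ0, φs, φr⟩ := exists_continuous_one_zero_of_isCompact s_compact
      V_open.isClosed_compl (disjoint_compl_right_iff_subset.2 sV)
    refine ⟨fun x => φ x • c, ?_, ?_, ?_⟩
    · rw [eLpNorm_one_eq_lintegral_enorm]
      have hbd : ∀ x, ‖((fun x => φ x • c) - t.indicator fun _ => c) x‖ₑ ≤
          (V \ s).indicator (fun _ => ‖c‖ₑ) x + (t \ s).indicator (fun _ => ‖c‖ₑ) x := by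
        intro x
        have hφ : ‖φ x • c‖ₑ ≤ ‖c‖ₑ := by
          rw [enorm_smul]
          refine mul_le_of_le_one_left' ?_
          rw [Real.enorm_eq_ofReal (φr x).1]
          exact ENNReal.ofReal_le_one.2 (φr x).2
        have hφ' : ‖φ x • c - c‖ₑ ≤ ‖c‖ₑ := by
          have : φ x • c - c = (φ x - 1) • c := by rw [sub_smul, one_smul]
          rw [this, enorm_smul]
          refine mul_le_of_le_one_left' ?_
          rw [← enorm_neg, Real.enorm_eq_ofReal (by have := (φr x).2; linarith)]
          exact ENNReal.ofReal_le_one.2 (by have := (φr x).1; linarith)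
        by_cases hxs : x ∈ s
        · have : φ x = 1 := φ1 hxs
          simp [this, st hxs]
        · by_cases hxt : x ∈ t
          · have h1 : x ∈ t \ s := ⟨hxt, hxs⟩
            rw [Pi.sub_apply, Set.indicator_of_mem hxt, Set.indicator_of_mem h1]
            exact hφ'.trans le_add_self
          · by_cases hxV : x ∈ V
            · have h1 : x ∈ V \ s := ⟨hxV, hxs⟩
              rw [Pi.sub_apply, Set.indicator_of_notMem hxt, Set.indicator_of_mem h1, sub_zero]
              exact hφ.trans le_self_add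
            · have : φ x = 0 := φ0 hxV
              simp [this, hxt]
      refine (lintegral_mono hbd).trans ?_
      rw [lintegral_add_left (measurable_const.indicator
        (V_open.measurableSet.diff s_closed.measurableSet)),
        lintegral_indicator_const (V_open.measurableSet.diff s_closed.measurableSet),
        lintegral_indicator_const (ht.diff s_closed.measurableSet), ← mul_add]
      refine le_trans ?_ hη
      gcongr
    · exact φ.continuous.smul continuous_const
    · exact φs.smul_right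
  · rintro f g ⟨hf1, hf2⟩ ⟨hg1, hg2⟩
    exact ⟨hf1.add hg1, hf2.add hg2⟩
  · rintro f ⟨hf1, hf2⟩
    exact (hf1.integrable_of_hasCompactSupport hf2).aestronglyMeasurable

theorem exists_cc_integral_sub_le {f : α → E} (hf : Integrable f μ) {ε : ℝ} (hε : 0 < ε) :
    ∃ g : α → E, HasCompactSupport g ∧ (∫ x, ‖f x - g x‖ ∂μ) ≤ ε ∧ Continuous g ∧
      Integrable g μ := by
  obtain ⟨g, h1, h2, h3⟩ := exists_cc_lintegral_sub_le hf (ε := ENNReal.ofReal ε)
    (by simpa using hε)
  have hgi := h2.integrable_of_hasCompactSupport (μ := μ) h3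
  refine ⟨g, h3, ?_, h2, hgi⟩
  have h4 := integral_norm_eq_lintegral_enorm (hf.sub hgi).aestronglyMeasurable
  rw [eLpNorm_one_eq_lintegral_enorm] at h1
  exact h4.trans_le (ENNReal.toReal_le_of_le_ofReal hε.le h1)

end Pool.Agent.H19.Beurling
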