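import Pool.Agent.H19.Beurling.L1
import Pool.Agent.H19.Beurling.Density

set_option autoImplicit false
set_option maxSynthPendingDepth 5
set_option linter.unusedSectionVars false

open MeasureTheory Measure Set Filter Topology
open scoped ENNReal NNReal Pointwise

namespace Pool.Agent.H19.Beurling

variable {G : Type*} [Group G] [TopologicalSpace G] [IsTopologicalGroup G] [T2Space G]
  [LocallyCompactSpace G] [MeasurableSpace G] [BorelSpace G]
variable {μ : Measure G} [μ.IsHaarMeasure] {ω : Weight G}

instance instLocFin : IsLocallyFiniteMeasure (ω.measure μ) :=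
  IsLocallyFiniteMeasure.withDensity_ofReal ω.continuous

instance instFinCompacts : IsFiniteMeasureOnCompacts (ω.measure μ) :=
  ⟨fun _ hK => hK.measure_lt_top⟩

theorem integrable_cc {g : G → ℂ} (hg : Continuous g) (hs : HasCompactSupport g) :
    Integrable g (ω.measure μ) :=
  hg.integrable_of_hasCompactSupport hs

/-- The class in `L¹(G, ω)` of a continuous function with compact support. -/
noncomputable def ofCc (μ : Measure G) [μ.IsHaarMeasure] (ω : Weight G) (g : G → ℂ)
    (hg : Continuous g) (hs : HasCompactSupport g) : L1 μ ω :=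
  L1.mk g (integrable_cc hg hs)

theorem coeFn_ofCc {g : G → ℂ} (hg : Continuous g) (hs : HasCompactSupport g) :
    (ofCc μ ω g hg hs : L1 μ ω) =ᵐ[ω.measure μ] g :=
  L1.coeFn_mk g (integrable_cc hg hs)

/-- Continuous functions with compact support are dense in `L¹(G, ω)`. -/
theorem dense_cc [μ.Regular] (f : L1 μ ω) {ε : ℝ} (hε : 0 < ε) :
    ∃ (g : G → ℂ) (hg : Continuous g) (hs : HasCompactSupport g),
      ‖f - ofCc μ ω g hg hs‖ ≤ ε := by
  have h1 : Integrable (fun s => ω s • f s) μ := integrable_measure_iff.1 (L1.integrable f)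
  obtain ⟨h, hsupp, hle, hcont, hint⟩ := exists_cc_integral_sub_le h1 hε
  have hωc : Continuous (fun s => (ω s)⁻¹) := ω.continuous.inv₀ fun s => (ω.pos s).ne'
  have hkc : Continuous (fun s => (ω s)⁻¹ • h s) := hωc.smul hcont
  have hks : HasCompactSupport (fun s => (ω s)⁻¹ • h s) :=
    hsupp.smul_left (f := fun s => (ω s)⁻¹)
  refine ⟨fun s => (ω s)⁻¹ • h s, hkc, hks, ?_⟩
  rw [L1.norm_def]
  refine le_trans (le_of_eq (integral_congr_ae ?_)) hle
  have h2 : ∀ᵐ s ∂μ, (f - ofCc μ ω _ hkc hks : L1 μ ω) s =
      f s - (ofCc μ ω _ hkc hks : L1 μ ω) s :=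
    ae_measure_iff.1 (L1.coeFn_sub _ _)
  have h3 : ∀ᵐ s ∂μ, (ofCc μ ω _ hkc hks : L1 μ ω) s =
      (ω s)⁻¹ • h s := ae_measure_iff.1 (coeFn_ofCc _ _)
  filter_upwards [h2, h3] with s h2 h3
  rw [h2, h3]
  have h4 : ω s • f s - h s = ω s • (f s - (ω s)⁻¹ • h s) := by
    rw [smul_sub, smul_inv_smul₀ (ω.pos s).ne']
  rw [h4, norm_smul, Real.norm_of_nonneg (ω.pos s).le]

/-- The extension by zero of a continuous function on a compact set is integrable. -/
theorem integrable_extend {K : Set G} (hK : IsCompact K) (u : C(K, ℂ)) :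
    Integrable (Function.extend Subtype.val u (0 : G → ℂ)) (ω.measure μ) := by
  have hm : Measurable (Function.extend Subtype.val u (0 : G → ℂ)) :=
    (MeasurableEmbedding.subtype_coe hK.measurableSet).measurable_extend
      u.continuous.measurable measurable_zero
  have : CompactSpace K := isCompact_iff_compactSpace.1 hK
  have h1 : Integrable (K.indicator fun _ => ‖u‖) (ω.measure μ) :=
    (integrable_indicator_iff hK.measurableSet).2
      (integrableOn_const hK.measure_lt_top.ne)
  refine h1.mono' hm.aestronglyMeasurable (Eventually.of_forall fun t => ?_)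
  by_cases ht : t ∈ K
  · rw [Set.indicator_of_mem ht]
    have : Function.extend Subtype.val u (0 : G → ℂ) t = u ⟨t, ht⟩ :=
      Subtype.val_injective.extend_apply u 0 (⟨t, ht⟩ : K)
    rw [this]
    exact u.norm_coe_le_norm _
  · rw [Set.indicator_of_notMem ht, Function.extend_apply' _ _ _ (by simpa using ht)]
    simp

/-- The canonical map `C(K, ℂ) → L¹(G, ω)` for compact `K`. -/
noncomputable def extendL (μ : Measure G) [μ.IsHaarMeasure] (ω : Weight G) {K : Set G}
    (hK : IsCompact K) [CompactSpace K] : C(K, ℂ) →L[ℂ] L1 μ ω :=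
  LinearMap.mkContinuous
    { toFun := fun u => L1.mk (Function.extend Subtype.val u (0 : G → ℂ)) (integrable_extend hK u)
      map_add' := by
        intro u v
        apply L1.ext
        filter_upwards [L1.coeFn_mk _ (integrable_extend (ω := ω) (μ := μ) hK (u + v)),
          L1.coeFn_mk _ (integrable_extend (ω := ω) (μ := μ) hK u),
          L1.coeFn_mk _ (integrable_extend (ω := ω) (μ := μ) hK v),
          L1.coeFn_add (L1.mk _ (integrable_extend (ω := ω) (μ := μ) hK u))
            (L1.mk _ (integrable_extend (ω := ω) (μ := μ) hK v))] with t h1 h2 h3 h4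
        rw [h1, h4, h2, h3]
        by_cases ht : t ∈ K
        · have e : ∀ w : C(K, ℂ), Function.extend Subtype.val w (0 : G → ℂ) t = w ⟨t, ht⟩ :=
            fun w => Subtype.val_injective.extend_apply w 0 (⟨t, ht⟩ : K)
          rw [e, e, e]; rfl
        · have e : ∀ w : C(K, ℂ), Function.extend Subtype.val w (0 : G → ℂ) t = 0 :=
            fun w => by rw [Function.extend_apply' _ _ _ (by simpa using ht)]; rfl
          rw [e, e, e]; simp
      map_smul' := by
        intro c u
        apply L1.ext
        filter_upwards [L1.coeFn_mk _ (integrable_extend (ω := ω) (μ := μ) hK (c • u)),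
          L1.coeFn_mk _ (integrable_extend (ω := ω) (μ := μ) hK u),
          L1.coeFn_smul c (L1.mk _ (integrable_extend (ω := ω) (μ := μ) hK u))] with t h1 h2 h3
        rw [h1, RingHom.id_apply, h3, h2]
        by_cases ht : t ∈ K
        · have e : ∀ w : C(K, ℂ), Function.extend Subtype.val w (0 : G → ℂ) t = w ⟨t, ht⟩ :=
            fun w => Subtype.val_injective.extend_apply w 0 (⟨t, ht⟩ : K)
          rw [e, e]; rfl
        · have e : ∀ w : C(K, ℂ), Function.extend Subtype.val w (0 : G → ℂ) t = 0 :=
            fun w => by rw [Function.extend_apply' _ _ _ (by simpa using ht)]; rfl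
          rw [e, e]; simp }
    ((ω.measure μ).real K) (by
      intro u
      rw [L1.norm_eq]
      have h1 : ∫ t, ‖(L1.mk (Function.extend Subtype.val u (0 : G → ℂ)) (integrable_extend hK u) :
          L1 μ ω) t‖ ∂(ω.measure μ) =
          ∫ t, ‖Function.extend Subtype.val u (0 : G → ℂ) t‖ ∂(ω.measure μ) := by
        refine integral_congr_ae ?_
        filter_upwards [L1.coeFn_mk _ (integrable_extend (ω := ω) (μ := μ) hK u)] with t ht
        rw [ht]
      refine h1.trans_le ?_
      have h2 : ∫ t, ‖Function.extend Subtype.val u (0 : G → ℂ) t‖ ∂(ω.measure μ) ≤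
          ∫ t, K.indicator (fun _ => ‖u‖) t ∂(ω.measure μ) := by
        refine integral_mono (integrable_extend hK u).norm
          ((integrable_indicator_iff hK.measurableSet).2
            (integrableOn_const hK.measure_lt_top.ne)) fun t => ?_
        by_cases ht : t ∈ K
        · rw [Set.indicator_of_mem ht]
          have : Function.extend Subtype.val u (0 : G → ℂ) t = u ⟨t, ht⟩ :=
            Subtype.val_injective.extend_apply u 0 (⟨t, ht⟩ : K)
          simp only [this]
          exact u.norm_coe_le_norm _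
        · simp only [Set.indicator_of_notMem ht]
          rw [Function.extend_apply' _ _ _ (by simpa using ht)]
          simp
      refine h2.trans_eq ?_
      rw [integral_indicator_const _ hK.measurableSet, smul_eq_mul])

theorem coeFn_extendL {K : Set G} (hK : IsCompact K) [CompactSpace K] (u : C(K, ℂ)) :
    (extendL μ ω hK u : L1 μ ω) =ᵐ[ω.measure μ] Function.extend Subtype.val u (0 : G → ℂ) :=
  L1.coeFn_mk _ (integrable_extend hK u)

theorem ofCc_eq_extendL {K : Set G} (hK : IsCompact K) [CompactSpace K] {g : G → ℂ}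
    (hg : Continuous g) (hs : HasCompactSupport g) (hgK : ∀ t, t ∉ K → g t = 0) :
    ofCc μ ω g hg hs = extendL μ ω hK ⟨fun t => g t, hg.comp continuous_subtype_val⟩ := by
  apply L1.ext
  filter_upwards [coeFn_ofCc (μ := μ) (ω := ω) hg hs,
    coeFn_extendL (μ := μ) (ω := ω) hK ⟨fun t => g t, hg.comp continuous_subtype_val⟩]
    with t h1 h2
  rw [h1, h2]
  by_cases ht : t ∈ K
  · exact (Subtype.val_injective.extend_apply
      (⟨fun t => g t, hg.comp continuous_subtype_val⟩ : C(K, ℂ)) 0 (⟨t, ht⟩ : K)).symm
  · rw [Function.extend_apply' _ _ _ (by simpa using ht), hgK t ht]; rfl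

theorem hasCompactSupport_comp_mul_left {E : Type*} [Zero E] {g : G → E}
    (hs : HasCompactSupport g) (s : G) : HasCompactSupport fun t => g (s⁻¹ * t) :=
  hs.comp_homeomorph (Homeomorph.mulLeft s⁻¹)

theorem translate_ofCc (s : G) {g : G → ℂ} (hg : Continuous g) (hs : HasCompactSupport g) :
    translate s (ofCc μ ω g hg hs) = ofCc μ ω (fun t => g (s⁻¹ * t))
      (hg.comp (continuous_const_mul s⁻¹)) (hasCompactSupport_comp_mul_left hs s) := by
  apply L1.ext
  filter_upwards [coeFn_translate s (ofCc μ ω g hg hs),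
    (quasi_mul_left (μ := μ) (ω := ω) s).ae (coeFn_ofCc (μ := μ) (ω := ω) hg hs),
    coeFn_ofCc (μ := μ) (ω := ω) (hg.comp (continuous_const_mul s⁻¹))
      (hasCompactSupport_comp_mul_left hs s)] with t h1 h2 h3
  exact (h1.trans h2).trans h3.symm

/-- The family `s ↦ (t ↦ g (s⁻¹ t))|_K`, as a continuous map into `C(K, ℂ)`. -/
noncomputable def curryTranslate {g : G → ℂ} (hg : Continuous g) (K : Set G) : C(G, C(K, ℂ)) :=
  ContinuousMap.curry ⟨fun p : G × K => g (p.1⁻¹ * p.2), by fun_prop⟩

theorem continuous_translate_ofCc {g : G → ℂ} (hg : Continuous g) (hs : HasCompactSupport g) :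
    Continuous fun s => translate s (ofCc μ ω g hg hs) := by
  rw [continuous_iff_continuousAt]
  intro s₀
  obtain ⟨V, hVc, hV⟩ := exists_compact_mem_nhds s₀
  have hK : IsCompact (V * tsupport g) := hVc.mul hs
  have : CompactSpace (V * tsupport g : Set G) := isCompact_iff_compactSpace.1 hK
  have h1 : Continuous fun s => extendL μ ω hK (curryTranslate hg (V * tsupport g) s) :=
    (extendL μ ω hK).continuous.comp (curryTranslate hg _).continuous
  refine h1.continuousAt.congr ?_
  filter_upwards [hV] with s hsV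
  rw [translate_ofCc, ofCc_eq_extendL hK]
  · rfl
  · intro t ht
    by_contra hne
    refine ht ⟨s, hsV, s⁻¹ * t, subset_tsupport _ hne, ?_⟩
    simp

theorem continuous_translate [μ.Regular] (f : L1 μ ω) :
    Continuous fun s => translate s f := by
  rw [continuous_iff_continuousAt]
  intro s₀
  have hωev : ∀ᶠ s in 𝓝 s₀, ω s < ω s₀ + 1 :=
    (ω.continuous.tendsto s₀).eventually_lt_const (lt_add_one _)
  rw [ContinuousAt, Metric.tendsto_nhds]
  intro ε hε
  set M : ℝ := ω s₀ + 1 with hM
  have hMpos : 0 < M := by have := ω.pos s₀; linarith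
  obtain ⟨g, hg, hs, hle⟩ := dense_cc f (ε := ε / (4 * M)) (by positivity)
  have h1 := (continuous_translate_ofCc (μ := μ) (ω := ω) hg hs).tendsto s₀
  rw [Metric.tendsto_nhds] at h1
  filter_upwards [h1 (ε / 4) (by positivity), hωev] with s hs1 hs2
  have a1 : ‖translate s (f - ofCc μ ω g hg hs)‖ ≤ ε / 4 := by
    refine (norm_translate_le s _).trans ?_
    calc ω s * ‖f - ofCc μ ω g hg hs‖ ≤ M * (ε / (4 * M)) := by
          refine mul_le_mul hs2.le hle (norm_nonneg _) hMpos.le
      _ = ε / 4 := by field_simp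
  have a2 : ‖translate s₀ (f - ofCc μ ω g hg hs)‖ ≤ ε / 4 := by
    refine (norm_translate_le s₀ _).trans ?_
    calc ω s₀ * ‖f - ofCc μ ω g hg hs‖ ≤ M * (ε / (4 * M)) := by
          refine mul_le_mul (by rw [hM]; linarith) hle (norm_nonneg _) hMpos.le
      _ = ε / 4 := by field_simp
  have a3 : translate s f - translate s₀ f =
      translate s (f - ofCc μ ω g hg hs) - translate s₀ (f - ofCc μ ω g hg hs) +
        (translate s (ofCc μ ω g hg hs) - translate s₀ (ofCc μ ω g hg hs)) := by
    rw [map_sub, map_sub]; abel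
  rw [dist_eq_norm, a3]
  rw [dist_eq_norm] at hs1
  calc _ ≤ ‖translate s (f - ofCc μ ω g hg hs) - translate s₀ (f - ofCc μ ω g hg hs)‖ +
        ‖translate s (ofCc μ ω g hg hs) - translate s₀ (ofCc μ ω g hg hs)‖ := norm_add_le _ _
    _ ≤ (‖translate s (f - ofCc μ ω g hg hs)‖ + ‖translate s₀ (f - ofCc μ ω g hg hs)‖) +
        ‖translate s (ofCc μ ω g hg hs) - translate s₀ (ofCc μ ω g hg hs)‖ := by
          gcongr; exact norm_sub_le _ _
    _ < (ε / 4 + ε / 4) + ε / 4 := add_lt_add_of_le_of_lt (add_le_add a1 a2) hs1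
    _ < ε := by linarith

end Pool.Agent.H19.Beurling
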