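import Pool.Agent.H19.Beurling.Cc

set_option autoImplicit false
set_option maxSynthPendingDepth 5
set_option linter.unusedSectionVars false

open MeasureTheory Measure Set Filter Topology
open scoped ENNReal NNReal Pointwise

namespace Pool.Agent.H19.Beurling

variable {G : Type*} [Group G] [TopologicalSpace G] [IsTopologicalGroup G] [T2Space G]
  [LocallyCompactSpace G] [MeasurableSpace G] [BorelSpace G]
variable {μ : Measure G} [μ.IsHaarMeasure] {ω : Weight G}

/-- Convolution on `L¹(G, ω)`, as a Bochner integral: `f * g = ∫ f(s) L_s g dμ(s)`. -/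
noncomputable def conv (f g : L1 μ ω) : L1 μ ω := ∫ s, f s • translate s g ∂μ

theorem aestronglyMeasurable_smul [μ.Regular] {E : Type*} [NormedAddCommGroup E] [NormedSpace ℂ E]
    (f : L1 μ ω) {T : G → E} (hT : Continuous T) :
    AEStronglyMeasurable (fun s => f s • T s) μ := by
  choose g hg hs hle using fun n : ℕ => dense_cc f (ε := 1 / ((n : ℝ) + 1)) (by positivity)
  have h1 : Tendsto (fun n => ofCc μ ω (g n) (hg n) (hs n)) atTop (𝓝 f) := by
    rw [tendsto_iff_norm_sub_tendsto_zero]
    refine squeeze_zero (fun n => norm_nonneg _) (fun n => ?_) tendsto_one_div_add_atTop_nhds_zero_nat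
    rw [norm_sub_rev]
    exact hle n
  have h2 : TendstoInMeasure (ω.measure μ) (fun n => ((ofCc μ ω (g n) (hg n) (hs n) : L1 μ ω) : G → ℂ))
      atTop (f : G → ℂ) := tendstoInMeasure_of_tendsto_Lp (E := ℂ) (p := 1) (μ := ω.measure μ)
        (f := fun n => (ofCc μ ω (g n) (hg n) (hs n) : L1 μ ω)) (g := f) h1
  obtain ⟨ns, -, hns⟩ := h2.exists_seq_tendsto_ae
  have h3 : ∀ᵐ s ∂μ, ∀ n, (ofCc μ ω (g n) (hg n) (hs n) : L1 μ ω) s = g n s :=
    ae_all_iff.2 fun n => ae_measure_iff.1 (coeFn_ofCc _ _)
  refine aestronglyMeasurable_of_tendsto_ae atTop (f := fun i s => g (ns i) s • T s) ?_ ?_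
  · intro i
    have hc : Continuous fun s => g (ns i) s • T s := (hg _).smul hT
    exact (hc.integrable_of_hasCompactSupport
      ((hs (ns i)).smul_right (f' := T))).aestronglyMeasurable
  · filter_upwards [ae_measure_iff.1 hns, h3] with s h4 h5
    simp only [h5] at h4
    exact h4.smul_const _

theorem integrable_smul [μ.Regular] {E : Type*} [NormedAddCommGroup E] [NormedSpace ℂ E]
    (f : L1 μ ω) {T : G → E} (hT : Continuous T) {C : ℝ} (hC : ∀ s, ‖T s‖ ≤ ω s * C) :
    Integrable (fun s => f s • T s) μ := by
  refine ((L1.integrable_mul f).mul_const C).mono' (aestronglyMeasurable_smul f hT)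
    (Eventually.of_forall fun s => ?_)
  rw [norm_smul]
  calc ‖f s‖ * ‖T s‖ ≤ ‖f s‖ * (ω s * C) := by gcongr; exact hC s
    _ = ω s * ‖f s‖ * C := by ring

theorem integrable_conv [μ.Regular] (f g : L1 μ ω) :
    Integrable (fun s => f s • translate s g) μ :=
  integrable_smul f (continuous_translate g) (norm_translate_le · g)

theorem norm_conv_le (f g : L1 μ ω) : ‖conv f g‖ ≤ ‖f‖ * ‖g‖ := by
  rw [conv, L1.norm_def f, ← integral_mul_const]
  refine norm_integral_le_of_norm_le ((L1.integrable_mul f).mul_const ‖g‖)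
    (Eventually.of_forall fun s => ?_)
  rw [norm_smul]
  calc ‖f s‖ * ‖translate s g‖ ≤ ‖f s‖ * (ω s * ‖g‖) := by gcongr; exact norm_translate_le s g
    _ = ω s * ‖f s‖ * ‖g‖ := by ring

variable [μ.Regular]

theorem add_conv (f g h : L1 μ ω) : conv (f + g) h = conv f h + conv g h := by
  rw [conv, conv, conv, ← integral_add (integrable_conv f h) (integrable_conv g h)]
  refine integral_congr_ae ?_
  filter_upwards [ae_measure_iff.1 (L1.coeFn_add f g)] with s hs
  rw [hs, add_smul]

theorem conv_add (f g h : L1 μ ω) : conv f (g + h) = conv f g + conv f h := by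
  rw [conv, conv, conv, ← integral_add (integrable_conv f g) (integrable_conv f h)]
  refine integral_congr_ae (Eventually.of_forall fun s => ?_)
  simp only [map_add, smul_add]

omit [μ.Regular] in
theorem smul_conv (c : ℂ) (f g : L1 μ ω) : conv (c • f) g = c • conv f g := by
  rw [conv, conv, ← integral_smul]
  refine integral_congr_ae ?_
  filter_upwards [ae_measure_iff.1 (L1.coeFn_smul c f)] with s hs
  rw [hs, mul_smul]

omit [μ.Regular] in
theorem conv_smul (c : ℂ) (f g : L1 μ ω) : conv f (c • g) = c • conv f g := by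
  rw [conv, conv, ← integral_smul]
  refine integral_congr_ae (Eventually.of_forall fun s => ?_)
  simp only [map_smul, smul_comm c]

/-- Right multiplication by `h`, as a bounded operator. -/
noncomputable def convRight (h : L1 μ ω) : L1 μ ω →L[ℂ] L1 μ ω :=
  LinearMap.mkContinuous
    { toFun := fun f => conv f h
      map_add' := fun f g => add_conv f g h
      map_smul' := fun c f => smul_conv c f h }
    ‖h‖ fun f => by rw [mul_comm]; exact norm_conv_le f h

theorem convRight_apply (f h : L1 μ ω) : convRight h f = conv f h := rfl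

theorem conv_translate (s : G) (g h : L1 μ ω) :
    conv (translate s g) h = translate s (conv g h) := by
  have h1 : conv (translate s g) h = ∫ u, g (s⁻¹ * u) • translate u h ∂μ := by
    refine integral_congr_ae ?_
    filter_upwards [ae_measure_iff.1 (coeFn_translate s g)] with u hu
    rw [hu]
  rw [h1, ← integral_mul_left_eq_self _ s, conv,
    ← ContinuousLinearMap.integral_comp_comm _ (integrable_conv g h)]
  refine integral_congr_ae (Eventually.of_forall fun u => ?_)
  simp only [inv_mul_cancel_left, map_smul, translate_mul]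

theorem conv_assoc (f g h : L1 μ ω) : conv (conv f g) h = conv f (conv g h) := by
  have h1 : conv (conv f g) h = convRight h (∫ s, f s • translate s g ∂μ) := rfl
  rw [h1, ← ContinuousLinearMap.integral_comp_comm _ (integrable_conv f g)]
  conv_rhs => rw [conv]
  refine integral_congr_ae (Eventually.of_forall fun s => ?_)
  simp only [map_smul, convRight_apply, conv_translate]

theorem zero_conv (f : L1 μ ω) : conv 0 f = 0 := by
  have := smul_conv (0 : ℂ) (0 : L1 μ ω) f
  rw [zero_smul, zero_smul] at this
  exact this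

theorem conv_zero (f : L1 μ ω) : conv f 0 = 0 := by
  have := conv_smul (0 : ℂ) f (0 : L1 μ ω)
  rw [zero_smul, zero_smul] at this
  exact this

noncomputable instance : Mul (L1 μ ω) := ⟨conv⟩

theorem mul_def (f g : L1 μ ω) : f * g = ∫ s, f s • translate s g ∂μ := rfl

/-- `L¹(G, ω)` is a (non-unital) Banach algebra under convolution. -/
noncomputable instance : NonUnitalNormedRing (L1 μ ω) :=
  { (inferInstance : NormedAddCommGroup (L1 μ ω)) with
    mul := (· * ·)
    left_distrib := conv_add
    right_distrib := add_conv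
    zero_mul := zero_conv
    mul_zero := conv_zero
    mul_assoc := conv_assoc
    norm_mul_le := norm_conv_le }

instance : IsScalarTower ℂ (L1 μ ω) (L1 μ ω) := ⟨smul_conv⟩

instance : SMulCommClass ℂ (L1 μ ω) (L1 μ ω) := ⟨fun c f g => (conv_smul c f g).symm⟩

omit [IsTopologicalGroup G] [T2Space G] [LocallyCompactSpace G] [μ.Regular] in
theorem integral_curryTranslate [IsTopologicalGroup G] {f g : G → ℂ} (hf : Continuous f)
    (hfs : HasCompactSupport f) (hg : Continuous g) (V : Set G) [CompactSpace V] (t : V) :
    (∫ s, f s • curryTranslate hg V s ∂μ) t = ∫ s, f s * g (s⁻¹ * t) ∂μ := by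
  have hint : Integrable (fun s => f s • curryTranslate hg V s) μ :=
    (hf.smul (curryTranslate hg V).continuous).integrable_of_hasCompactSupport
      (hfs.smul_right (f' := fun s => curryTranslate hg V s))
  rw [ContinuousMap.integral_apply hint]
  rfl

/-- On continuous functions with compact support the product of `L¹(G, ω)` is given by the
usual formula `(f * g)(t) = ∫ f(s) g(s⁻¹ t) dμ(s)`. -/
theorem mul_ofCc {f g : G → ℂ} (hf : Continuous f) (hfs : HasCompactSupport f)
    (hg : Continuous g) (hgs : HasCompactSupport g) :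
    ∃ (hc : Continuous fun t => ∫ s, f s * g (s⁻¹ * t) ∂μ)
      (hcs : HasCompactSupport fun t => ∫ s, f s * g (s⁻¹ * t) ∂μ),
      ofCc μ ω f hf hfs * ofCc μ ω g hg hgs = ofCc μ ω _ hc hcs := by
  have hc : Continuous fun t => ∫ s, f s * g (s⁻¹ * t) ∂μ := by
    rw [continuous_iff_continuousAt]
    intro t₀
    obtain ⟨V, hVc, hV⟩ := exists_compact_mem_nhds t₀
    have : CompactSpace V := isCompact_iff_compactSpace.1 hVc
    have h1 : ContinuousOn (fun t => ∫ s, f s * g (s⁻¹ * t) ∂μ) V := by
      rw [continuousOn_iff_continuous_domRestrict]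
      have h2 : V.domRestrict (fun t => ∫ s, f s * g (s⁻¹ * t) ∂μ) =
          (∫ s, f s • curryTranslate hg V s ∂μ : C(V, ℂ)) := by
        funext t
        rw [integral_curryTranslate hf hfs hg V t]
        rfl
      rw [h2]
      exact ContinuousMap.continuous _
    exact h1.continuousAt hV
  have hK : IsCompact (tsupport f * tsupport g) := hfs.mul hgs
  have hKs : CompactSpace (tsupport f * tsupport g : Set G) := isCompact_iff_compactSpace.1 hK
  have hsupp : ∀ t, t ∉ tsupport f * tsupport g → ∫ s, f s * g (s⁻¹ * t) ∂μ = 0 := by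
    intro t ht
    rw [← integral_zero G ℂ]
    refine integral_congr_ae (Eventually.of_forall fun s => ?_)
    by_contra hne
    have h1 : f s ≠ 0 := fun h => hne (by simp [h])
    have h2 : g (s⁻¹ * t) ≠ 0 := fun h => hne (by simp [h])
    exact ht ⟨s, subset_tsupport _ h1, s⁻¹ * t, subset_tsupport _ h2, by simp⟩
  have hcs : HasCompactSupport fun t => ∫ s, f s * g (s⁻¹ * t) ∂μ :=
    HasCompactSupport.intro hK hsupp
  refine ⟨hc, hcs, ?_⟩
  rw [mul_def, ofCc_eq_extendL hK hc hcs hsupp]
  have hint : Integrable (fun s => f s • curryTranslate hg (tsupport f * tsupport g) s) μ :=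
    (hf.smul (curryTranslate hg _).continuous).integrable_of_hasCompactSupport
      (hfs.smul_right (f' := fun s => curryTranslate hg _ s))
  have h3 : (⟨fun t : (tsupport f * tsupport g : Set G) => ∫ s, f s * g (s⁻¹ * t) ∂μ,
      hc.comp continuous_subtype_val⟩ : C((tsupport f * tsupport g : Set G), ℂ)) =
      ∫ s, f s • curryTranslate hg (tsupport f * tsupport g) s ∂μ := by
    ext t
    rw [integral_curryTranslate hf hfs hg _ t]
    rfl
  rw [h3, ← ContinuousLinearMap.integral_comp_comm _ hint]
  refine integral_congr_ae ?_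
  filter_upwards [ae_measure_iff.1 (coeFn_ofCc (μ := μ) (ω := ω) hf hfs)] with s hs
  rw [hs, map_smul]
  by_cases hfz : f s = 0
  · rw [hfz, zero_smul, zero_smul]
  congr 1
  rw [translate_ofCc, ofCc_eq_extendL hK]
  · rfl
  · intro t ht
    by_contra hne
    exact ht ⟨s, subset_tsupport _ hfz, s⁻¹ * t, subset_tsupport _ hne, by simp⟩

end Pool.Agent.H19.Beurling
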