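import Pool.Agent.H19.Beurling.Conv
import Pool.Agent.H19.Beurling.Arens
import Pool.Agent.BeurlingBidual.Core

set_option autoImplicit false
set_option maxSynthPendingDepth 5
set_option linter.unusedSectionVars false

open MeasureTheory Measure Set Filter Topology
open scoped ENNReal NNReal Pointwise BoundedContinuousFunction

namespace Pool.Agent.H19.Beurling

open Pool.Agent.BeurlingBidual

universe u

variable {G : Type u} [Group G] [TopologicalSpace G] [IsTopologicalGroup G] [DiscreteTopology G]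
  [MeasurableSpace G] [BorelSpace G]
variable {μ : Measure G} [μ.IsHaarMeasure] {ω : Weight G}

theorem mass_pos (μ : Measure G) [μ.IsHaarMeasure] : 0 < μ.real {(1 : G)} := by
  refine ENNReal.toReal_pos ?_ ?_
  · exact ((isOpen_discrete {(1 : G)}).measure_pos μ ⟨1, rfl⟩).ne'
  · exact (isCompact_singleton (x := (1 : G))).measure_lt_top.ne

theorem real_singleton' (s : G) : μ.real {s} = μ.real {(1 : G)} := by
  rw [Measure.real, Measure.real, haar_singleton]

theorem hasCompactSupport_single [DecidableEq G] (s : G) (c : ℂ) :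
    HasCompactSupport (Pi.single s c : G → ℂ) :=
  HasCompactSupport.intro (isCompact_singleton (x := s)) fun x hx => by
    rw [Pi.single_apply, if_neg (by simpa using hx)]

theorem integral_single [DecidableEq G] {E : Type*} [NormedAddCommGroup E] [NormedSpace ℂ E]
    [CompleteSpace E] (s : G) (T : G → E) :
    ∫ u, (Pi.single s (1 : ℂ) : G → ℂ) u • T u ∂μ = (μ.real {(1 : G)} : ℂ) • T s := by
  have h1 : (fun u => (Pi.single s (1 : ℂ) : G → ℂ) u • T u) = ({s} : Set G).indicator T := by
    funext u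
    by_cases hu : u = s
    · subst hu; simp
    · rw [Set.indicator_of_notMem (by simpa using hu), Pi.single_apply, if_neg hu, zero_smul]
  rw [h1, integral_indicator (measurableSet_singleton s), integral_singleton, real_singleton']
  rw [Complex.coe_smul]

open Classical in
/-- The point mass at `s`, normalised to have value `1` at `s`. -/
noncomputable def dl (μ : Measure G) [μ.IsHaarMeasure] (ω : Weight G) (s : G) : L1 μ ω :=
  ofCc μ ω (Pi.single s 1) continuous_of_discreteTopology (hasCompactSupport_single s 1)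

open Classical in
theorem coeFn_dl (s : G) : (dl μ ω s : L1 μ ω) =ᵐ[ω.measure μ] (Pi.single s (1 : ℂ) : G → ℂ) :=
  coeFn_ofCc _ _

theorem norm_dl (s : G) : ‖dl μ ω s‖ = μ.real {(1 : G)} * ω s := by
  classical
  rw [L1.norm_def]
  have h1 : ∫ u, ω u * ‖(dl μ ω s : L1 μ ω) u‖ ∂μ = ∫ u, ({s} : Set G).indicator (ω : G → ℝ) u ∂μ := by
    refine integral_congr_ae ?_
    filter_upwards [ae_measure_iff.1 (coeFn_dl (μ := μ) (ω := ω) s)] with u hu
    rw [hu]
    by_cases hus : u = s
    · subst hus; simp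
    · rw [Set.indicator_of_notMem (by simpa using hus), Pi.single_apply, if_neg hus]
      simp
  rw [h1, integral_indicator (measurableSet_singleton s), integral_singleton, real_singleton']
  rfl

variable [μ.Regular]

theorem dl_mul (s : G) (g : L1 μ ω) : dl μ ω s * g = (μ.real {(1 : G)} : ℂ) • translate s g := by
  classical
  rw [mul_def, ← integral_single (μ := μ) s (fun u => translate u g)]
  refine integral_congr_ae ?_
  filter_upwards [ae_measure_iff.1 (coeFn_dl (μ := μ) (ω := ω) s)] with u hu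
  rw [hu]

theorem translate_dl (s t : G) : translate s (dl μ ω t) = dl μ ω (s * t) := by
  classical
  rw [dl, dl, translate_ofCc]
  congr 1
  funext x
  rw [Pi.single_apply, Pi.single_apply]
  congr 1
  rw [inv_mul_eq_iff_eq_mul]

theorem dl_mul_dl (s t : G) :
    dl μ ω s * dl μ ω t = (μ.real {(1 : G)} : ℂ) • dl μ ω (s * t) := by
  rw [dl_mul, translate_dl]

/-- A bounded functional on `L¹(G, ω)` is determined by its values on point masses. -/
theorem dual_ext {f g : StrongDual ℂ (L1 μ ω)} (h : ∀ s, f (dl μ ω s) = g (dl μ ω s)) : f = g := by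
  classical
  have h1 : ∀ (k : G → ℂ) (hk : Continuous k) (hs : HasCompactSupport k),
      f (ofCc μ ω k hk hs) = g (ofCc μ ω k hk hs) := by
    intro k hk hs
    have hfin : (Function.support k).Finite := by
      have h2 := hs.isCompact.finite_of_discrete
      exact h2.subset (subset_tsupport k)
    have h3 : ofCc μ ω k hk hs = ∑ s ∈ hfin.toFinset, k s • dl μ ω s := by
      -- by induction on finsets, `∑ k s • dl s` is `ofCc` of the truncation
      have key : ∀ F : Finset G, ∃ (hc : Continuous fun x => if x ∈ F then k x else 0)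
          (hcs : HasCompactSupport fun x => if x ∈ F then k x else 0),
          ∑ s ∈ F, k s • dl μ ω s = ofCc μ ω (fun x => if x ∈ F then k x else 0) hc hcs := by
        intro F
        refine ⟨continuous_of_discreteTopology, HasCompactSupport.intro F.finite_toSet.isCompact
          fun x hx => if_neg (by simpa using hx), ?_⟩
        induction F using Finset.induction_on with
        | empty =>
          rw [Finset.sum_empty]
          apply L1.ext
          filter_upwards [L1.coeFn_smul (0 : ℂ) (0 : L1 μ ω), coeFn_ofCc (μ := μ) (ω := ω)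
            (continuous_of_discreteTopology (f := fun x : G => if x ∈ (∅ : Finset G) then k x else 0))
            (HasCompactSupport.intro (∅ : Finset G).finite_toSet.isCompact
              fun x hx => if_neg (by simp))] with x h1 h2
          rw [h2]
          rw [zero_smul] at h1
          rw [h1]; simp
        | insert a F ha ih =>
          rw [Finset.sum_insert ha, ih]
          apply L1.ext
          filter_upwards [L1.coeFn_add (k a • dl μ ω a) (ofCc μ ω
            (fun x => if x ∈ F then k x else 0) continuous_of_discreteTopology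
            (HasCompactSupport.intro F.finite_toSet.isCompact
              fun x hx => if_neg (by simpa using hx))),
            L1.coeFn_smul (k a) (dl μ ω a), coeFn_dl (μ := μ) (ω := ω) a,
            coeFn_ofCc (μ := μ) (ω := ω)
            (continuous_of_discreteTopology (f := fun x : G => if x ∈ F then k x else 0))
            (HasCompactSupport.intro F.finite_toSet.isCompact
              fun x hx => if_neg (by simpa using hx)),
            coeFn_ofCc (μ := μ) (ω := ω)
            (continuous_of_discreteTopology (f := fun x : G => if x ∈ insert a F then k x else 0))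
            (HasCompactSupport.intro (insert a F).finite_toSet.isCompact
              fun x hx => if_neg (by simpa using hx))] with x h1 h2 h3 h4 h5
          rw [h1, h2, h3, h4, h5]
          by_cases hxa : x = a
          · subst hxa; simp [ha]
          · rw [Pi.single_apply, if_neg hxa]
            simp [hxa]
      obtain ⟨hc, hcs, hsum⟩ := key hfin.toFinset
      rw [hsum]
      congr 1
      funext x
      by_cases hx : k x = 0
      · simp [hx]
      · rw [if_pos (by simpa using hx)]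
    rw [h3, _root_.map_sum, _root_.map_sum]
    refine Finset.sum_congr rfl fun s _ => ?_
    rw [map_smul, map_smul, h s]
  ext a
  by_contra hne
  have hpos : 0 < ‖f a - g a‖ := norm_pos_iff.2 (sub_ne_zero.2 hne)
  obtain ⟨k, hk, hs, hle⟩ := dense_cc a (ε := ‖f a - g a‖ / (2 * (‖f - g‖ + 1))) (by positivity)
  have h2 : f a - g a = (f - g) (a - ofCc μ ω k hk hs) := by
    rw [map_sub]
    have : (f - g) (ofCc μ ω k hk hs) = 0 := by
      change f (ofCc μ ω k hk hs) - g (ofCc μ ω k hk hs) = 0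
      rw [h1, sub_self]
    rw [this, sub_zero]; rfl
  have h3 : ‖f a - g a‖ ≤ ‖f - g‖ * (‖f a - g a‖ / (2 * (‖f - g‖ + 1))) := by
    conv_lhs => rw [h2]
    exact ((f - g).le_opNorm _).trans (mul_le_mul_of_nonneg_left hle (norm_nonneg _))
  have h4 : ‖f - g‖ * (‖f a - g a‖ / (2 * (‖f - g‖ + 1))) < ‖f a - g a‖ := by
    rw [mul_div_assoc', div_lt_iff₀ (by positivity)]
    nlinarith [norm_nonneg (f - g)]
  linarith

/-- The normalised cocycle of the weight. -/
noncomputable def twist (ω : Weight G) : Twist G where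
  Ω := fun s t => ω (s * t) / (ω s * ω t)
  pos := fun s t => div_pos (ω.pos _) (mul_pos (ω.pos _) (ω.pos _))
  le_one := fun s t => (div_le_one (mul_pos (ω.pos _) (ω.pos _))).2 (ω.mul_le s t)
  cocycle := fun s t r => by
    have h1 := (ω.pos s).ne'
    have h2 := (ω.pos t).ne'
    have h3 := (ω.pos r).ne'
    have h4 := (ω.pos (s * t)).ne'
    have h5 := (ω.pos (t * r)).ne'
    rw [mul_assoc s t r]
    field_simp
  one_left := fun t => by
    have h2 := (ω.pos t).ne'
    rw [one_mul, ω.one, one_mul, div_self h2]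

theorem norm_apply_dl_le (f : StrongDual ℂ (L1 μ ω)) (s : G) :
    ‖f (dl μ ω s) / ((μ.real {(1 : G)} * ω s : ℝ) : ℂ)‖ ≤ ‖f‖ := by
  have h1 : 0 < μ.real {(1 : G)} * ω s := mul_pos (mass_pos μ) (ω.pos s)
  rw [norm_div, Complex.norm_real, Real.norm_of_nonneg h1.le, div_le_iff₀ h1, ← norm_dl]
  exact f.le_opNorm _

/-- The bounded real function `s ↦ Re (f(δ_s) / (c ω s))`. -/
noncomputable def hRe (f : StrongDual ℂ (L1 μ ω)) : G →ᵇ ℝ :=
  mkB (fun s => (f (dl μ ω s) / ((μ.real {(1 : G)} * ω s : ℝ) : ℂ)).re) ‖f‖ fun s =>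
    (Complex.abs_re_le_norm _).trans (norm_apply_dl_le f s)

/-- The bounded real function `s ↦ Im (f(δ_s) / (c ω s))`. -/
noncomputable def hIm (f : StrongDual ℂ (L1 μ ω)) : G →ᵇ ℝ :=
  mkB (fun s => (f (dl μ ω s) / ((μ.real {(1 : G)} * ω s : ℝ) : ℂ)).im) ‖f‖ fun s =>
    (Complex.abs_im_le_norm _).trans (norm_apply_dl_le f s)

theorem norm_hRe_le (f : StrongDual ℂ (L1 μ ω)) : ‖hRe f‖ ≤ ‖f‖ :=
  (BoundedContinuousFunction.norm_le (norm_nonneg _)).2 fun s =>
    (Complex.abs_re_le_norm _).trans (norm_apply_dl_le f s)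

theorem norm_hIm_le (f : StrongDual ℂ (L1 μ ω)) : ‖hIm f‖ ≤ ‖f‖ :=
  (BoundedContinuousFunction.norm_le (norm_nonneg _)).2 fun s =>
    (Complex.abs_im_le_norm _).trans (norm_apply_dl_le f s)

theorem hRe_apply (f : StrongDual ℂ (L1 μ ω)) (s : G) :
    hRe f s = (f (dl μ ω s) / ((μ.real {(1 : G)} * ω s : ℝ) : ℂ)).re := rfl

theorem hIm_apply (f : StrongDual ℂ (L1 μ ω)) (s : G) :
    hIm f s = (f (dl μ ω s) / ((μ.real {(1 : G)} * ω s : ℝ) : ℂ)).im := rfl

theorem hRe_add (f g : StrongDual ℂ (L1 μ ω)) : hRe (f + g) = hRe f + hRe g := by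
  ext s
  rw [BoundedContinuousFunction.add_apply, hRe_apply, hRe_apply, hRe_apply, ← Complex.add_re,
    ← add_div]
  rfl

theorem hIm_add (f g : StrongDual ℂ (L1 μ ω)) : hIm (f + g) = hIm f + hIm g := by
  ext s
  rw [BoundedContinuousFunction.add_apply, hIm_apply, hIm_apply, hIm_apply, ← Complex.add_im,
    ← add_div]
  rfl

theorem hRe_smul (c : ℂ) (f : StrongDual ℂ (L1 μ ω)) :
    hRe (c • f) = c.re • hRe f - c.im • hIm f := by
  ext s
  have h1 : (c • f) (dl μ ω s) / ((μ.real {(1 : G)} * ω s : ℝ) : ℂ) =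
      c * (f (dl μ ω s) / ((μ.real {(1 : G)} * ω s : ℝ) : ℂ)) := by
    rw [← mul_div_assoc]; rfl
  rw [hRe_apply, h1, Complex.mul_re]
  rfl

theorem hIm_smul (c : ℂ) (f : StrongDual ℂ (L1 μ ω)) :
    hIm (c • f) = c.re • hIm f + c.im • hRe f := by
  ext s
  have h1 : (c • f) (dl μ ω s) / ((μ.real {(1 : G)} * ω s : ℝ) : ℂ) =
      c * (f (dl μ ω s) / ((μ.real {(1 : G)} * ω s : ℝ) : ℂ)) := by
    rw [← mul_div_assoc]; rfl
  rw [hIm_apply, h1, Complex.mul_im]
  rfl

/-- The complexification of a real functional on bounded functions, as an element of `A''`. -/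
noncomputable def tilde (P : (G →ᵇ ℝ) →L[ℝ] ℝ) : SecondDual ℂ (L1 μ ω) where
  toDual := LinearMap.mkContinuous
    { toFun := fun f : StrongDual ℂ (L1 μ ω) => (P (hRe f) : ℂ) + (P (hIm f) : ℂ) * Complex.I
      map_add' := by
        intro f g
        rw [hRe_add, hIm_add, map_add, map_add]
        push_cast
        ring
      map_smul' := by
        intro c f
        rw [hRe_smul, hIm_smul, map_add, map_sub]
        simp only [map_smul, smul_eq_mul, RingHom.id_apply]
        apply Complex.ext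
        · simp
        · simp }
    (2 * ‖P‖) (by
      intro f
      have h1 : ‖P (hRe f)‖ ≤ ‖P‖ * ‖f‖ := (P.le_opNorm _).trans
        (mul_le_mul_of_nonneg_left (norm_hRe_le f) (norm_nonneg _))
      have h2 : ‖P (hIm f)‖ ≤ ‖P‖ * ‖f‖ := (P.le_opNorm _).trans
        (mul_le_mul_of_nonneg_left (norm_hIm_le f) (norm_nonneg _))
      refine (norm_add_le _ _).trans ?_
      rw [norm_mul, Complex.norm_I, mul_one, Complex.norm_real, Complex.norm_real]
      linarith)

theorem tilde_apply (P : (G →ᵇ ℝ) →L[ℝ] ℝ) (f : StrongDual ℂ (L1 μ ω)) :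
    (tilde P : SecondDual ℂ (L1 μ ω)) f = (P (hRe f) : ℂ) + (P (hIm f) : ℂ) * Complex.I := rfl

theorem quot_dualMul (f : StrongDual ℂ (L1 μ ω)) (s t : G) :
    dualMul f (dl μ ω s) (dl μ ω t) / ((μ.real {(1 : G)} * ω t : ℝ) : ℂ) =
      ((μ.real {(1 : G)} * ω s : ℝ) : ℂ) * (((twist ω).Ω s t : ℂ) *
        (f (dl μ ω (s * t)) / ((μ.real {(1 : G)} * ω (s * t) : ℝ) : ℂ))) := by
  have h0 : ((μ.real {(1 : G)} : ℝ) : ℂ) ≠ 0 := Complex.ofReal_ne_zero.2 (mass_pos μ).ne'
  have h1 : ((ω s : ℝ) : ℂ) ≠ 0 := Complex.ofReal_ne_zero.2 (ω.pos s).ne'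
  have h2 : ((ω t : ℝ) : ℂ) ≠ 0 := Complex.ofReal_ne_zero.2 (ω.pos t).ne'
  have h3 : ((ω (s * t) : ℝ) : ℂ) ≠ 0 := Complex.ofReal_ne_zero.2 (ω.pos (s * t)).ne'
  rw [dualMul_apply, dl_mul_dl, map_smul, smul_eq_mul]
  simp only [twist]
  push_cast
  field_simp

theorem hRe_dualMul (f : StrongDual ℂ (L1 μ ω)) (s : G) :
    hRe (dualMul f (dl μ ω s)) = (μ.real {(1 : G)} * ω s) • (twist ω).M s (hRe f) := by
  ext t
  rw [hRe_apply, quot_dualMul, Complex.re_ofReal_mul, Complex.re_ofReal_mul]
  rfl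

theorem hIm_dualMul (f : StrongDual ℂ (L1 μ ω)) (s : G) :
    hIm (dualMul f (dl μ ω s)) = (μ.real {(1 : G)} * ω s) • (twist ω).M s (hIm f) := by
  ext t
  rw [hIm_apply, quot_dualMul, Complex.im_ofReal_mul, Complex.im_ofReal_mul]
  rfl

theorem quot_bidualMul (P : (G →ᵇ ℝ) →L[ℝ] ℝ) (f : StrongDual ℂ (L1 μ ω)) (s : G) :
    bidualMul (tilde P) f (dl μ ω s) / ((μ.real {(1 : G)} * ω s : ℝ) : ℂ) =
      (P ((twist ω).M s (hRe f)) : ℂ) + (P ((twist ω).M s (hIm f)) : ℂ) * Complex.I := by
  have h1 : ((μ.real {(1 : G)} * ω s : ℝ) : ℂ) ≠ 0 :=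
    Complex.ofReal_ne_zero.2 (mul_pos (mass_pos μ) (ω.pos s)).ne'
  rw [bidualMul_apply, tilde_apply, hRe_dualMul, hIm_dualMul, map_smul, map_smul, smul_eq_mul,
    smul_eq_mul, div_eq_iff h1]
  push_cast
  ring

theorem hRe_bidualMul (P : (G →ᵇ ℝ) →L[ℝ] ℝ) (f : StrongDual ℂ (L1 μ ω)) :
    hRe (bidualMul (tilde P) f) = (twist ω).T P (hRe f) := by
  ext s
  rw [hRe_apply, quot_bidualMul]
  simp

theorem hIm_bidualMul (P : (G →ᵇ ℝ) →L[ℝ] ℝ) (f : StrongDual ℂ (L1 μ ω)) :
    hIm (bidualMul (tilde P) f) = (twist ω).T P (hIm f) := by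
  ext s
  rw [hIm_apply, quot_bidualMul]
  simp

theorem tilde_mul (P Q : (G →ᵇ ℝ) →L[ℝ] ℝ) :
    (tilde P * tilde Q : SecondDual ℂ (L1 μ ω)) = tilde ((twist ω).box P Q) := by
  refine SecondDual.ext fun f => ?_
  rw [mul_apply, tilde_apply, tilde_apply, hRe_bidualMul, hIm_bidualMul]
  rfl

/-- The functional `b ↦ ∫ b h ω dμ` for bounded real `h`. -/
noncomputable def fun' (μ : Measure G) [μ.IsHaarMeasure] (ω : Weight G) (h : G →ᵇ ℝ) :
    StrongDual ℂ (L1 μ ω) :=
  LinearMap.mkContinuous
    { toFun := fun b => ∫ x, (h x : ℂ) * b x ∂(ω.measure μ)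
      map_add' := by
        intro b c
        have hi : ∀ b : L1 μ ω, Integrable (fun x => (h x : ℂ) * b x) (ω.measure μ) := fun b =>
          (L1.integrable b).bdd_mul (c := ‖h‖)
            (Complex.continuous_ofReal.comp h.continuous).aestronglyMeasurable
            (Eventually.of_forall fun x => by
              rw [Complex.norm_real]; exact h.norm_coe_le_norm x)
        rw [← integral_add (hi b) (hi c)]
        refine integral_congr_ae ?_
        filter_upwards [L1.coeFn_add b c] with t ht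
        rw [ht]; ring
      map_smul' := by
        intro c b
        rw [RingHom.id_apply, ← integral_smul]
        refine integral_congr_ae ?_
        filter_upwards [L1.coeFn_smul c b] with t ht
        rw [ht, smul_eq_mul]; ring }
    ‖h‖ (by
      intro b
      rw [L1.norm_eq, ← integral_const_mul]
      refine norm_integral_le_of_norm_le ((L1.integrable b).norm.const_mul _)
        (Eventually.of_forall fun x => ?_)
      rw [norm_mul, Complex.norm_real]
      exact mul_le_mul_of_nonneg_right (h.norm_coe_le_norm x) (norm_nonneg _))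

theorem fun'_dl (h : G →ᵇ ℝ) (s : G) :
    fun' μ ω h (dl μ ω s) = ((μ.real {(1 : G)} * ω s : ℝ) : ℂ) * (h s : ℂ) := by
  classical
  have h1 : fun' μ ω h (dl μ ω s) = ∫ x, (h x : ℂ) * (dl μ ω s : L1 μ ω) x ∂(ω.measure μ) := rfl
  have h2 : ∫ x, (h x : ℂ) * (dl μ ω s : L1 μ ω) x ∂(ω.measure μ) =
      ∫ x, (Pi.single s (1 : ℂ) : G → ℂ) x • ((ω x : ℂ) * (h x : ℂ)) ∂μ := by
    rw [integral_measure]
    refine integral_congr_ae ?_
    filter_upwards [ae_measure_iff.1 (coeFn_dl (μ := μ) (ω := ω) s)] with x hx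
    rw [hx, Complex.real_smul, smul_eq_mul]
    ring
  rw [h1, h2, integral_single, smul_eq_mul]
  push_cast
  ring

theorem quot_fun' (h : G →ᵇ ℝ) (s : G) :
    fun' μ ω h (dl μ ω s) / ((μ.real {(1 : G)} * ω s : ℝ) : ℂ) = (h s : ℂ) := by
  have h1 : ((μ.real {(1 : G)} * ω s : ℝ) : ℂ) ≠ 0 :=
    Complex.ofReal_ne_zero.2 (mul_pos (mass_pos μ) (ω.pos s)).ne'
  rw [fun'_dl, mul_div_cancel_left₀ _ h1]

theorem hRe_fun' (h : G →ᵇ ℝ) : hRe (fun' μ ω h) = h := by
  ext s
  rw [hRe_apply, quot_fun', Complex.ofReal_re]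

theorem hIm_fun' (h : G →ᵇ ℝ) : hIm (fun' μ ω h) = 0 := by
  ext s
  rw [hIm_apply, quot_fun', Complex.ofReal_im]
  rfl

theorem fun'_decomp (f : StrongDual ℂ (L1 μ ω)) :
    f = fun' μ ω (hRe f) + Complex.I • fun' μ ω (hIm f) := by
  refine dual_ext fun s => ?_
  have h1 : ((μ.real {(1 : G)} * ω s : ℝ) : ℂ) ≠ 0 :=
    Complex.ofReal_ne_zero.2 (mul_pos (mass_pos μ) (ω.pos s)).ne'
  rw [_root_.add_apply, _root_.smul_apply, fun'_dl, fun'_dl, hRe_apply, hIm_apply, smul_eq_mul]
  have h2 := Complex.re_add_im (f (dl μ ω s) / ((μ.real {(1 : G)} * ω s : ℝ) : ℂ))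
  have h3 : f (dl μ ω s) = ((μ.real {(1 : G)} * ω s : ℝ) : ℂ) *
      (f (dl μ ω s) / ((μ.real {(1 : G)} * ω s : ℝ) : ℂ)) := by
    rw [mul_div_cancel₀ _ h1]
  conv_lhs => rw [h3, ← h2]
  ring

theorem fun'_add (h k : G →ᵇ ℝ) : fun' μ ω (h + k) = fun' μ ω h + fun' μ ω k := by
  refine dual_ext fun s => ?_
  rw [_root_.add_apply, fun'_dl, fun'_dl, fun'_dl, BoundedContinuousFunction.add_apply]
  push_cast
  ring

theorem fun'_smul (c : ℝ) (h : G →ᵇ ℝ) : fun' μ ω (c • h) = (c : ℂ) • fun' μ ω h := by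
  refine dual_ext fun s => ?_
  have h1 : (c • h) s = c * h s := rfl
  rw [_root_.smul_apply, fun'_dl, fun'_dl, h1, smul_eq_mul]
  push_cast
  ring

theorem norm_fun'_le (h : G →ᵇ ℝ) : ‖fun' μ ω h‖ ≤ ‖h‖ :=
  LinearMap.mkContinuous_norm_le _ (norm_nonneg h) _

/-- Real part of an element of `A''`, as a real functional on bounded functions. -/
noncomputable def rePart (X : SecondDual ℂ (L1 μ ω)) : (G →ᵇ ℝ) →L[ℝ] ℝ :=
  LinearMap.mkContinuous
    { toFun := fun h => (X (fun' μ ω h)).re
      map_add' := fun h k => by rw [fun'_add, SecondDual.map_add, Complex.add_re]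
      map_smul' := fun c h => by
        rw [fun'_smul, SecondDual.map_smul, smul_eq_mul, Complex.re_ofReal_mul]; rfl }
    ‖X.toDual‖ (by
      intro h
      refine (Complex.abs_re_le_norm _).trans ?_
      exact (X.toDual.le_opNorm _).trans
        (mul_le_mul_of_nonneg_left (norm_fun'_le h) (norm_nonneg _)))

/-- Imaginary part of an element of `A''`. -/
noncomputable def imPart (X : SecondDual ℂ (L1 μ ω)) : (G →ᵇ ℝ) →L[ℝ] ℝ :=
  LinearMap.mkContinuous
    { toFun := fun h => (X (fun' μ ω h)).im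
      map_add' := fun h k => by rw [fun'_add, SecondDual.map_add, Complex.add_im]
      map_smul' := fun c h => by
        rw [fun'_smul, SecondDual.map_smul, smul_eq_mul, Complex.im_ofReal_mul]; rfl }
    ‖X.toDual‖ (by
      intro h
      refine (Complex.abs_im_le_norm _).trans ?_
      exact (X.toDual.le_opNorm _).trans
        (mul_le_mul_of_nonneg_left (norm_fun'_le h) (norm_nonneg _)))

theorem eq_tilde (X : SecondDual ℂ (L1 μ ω)) :
    X = tilde (rePart X) + Complex.I • tilde (imPart X) := by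
  refine SecondDual.ext fun f => ?_
  rw [add_apply', smul_apply', tilde_apply, tilde_apply]
  conv_lhs => rw [fun'_decomp f]
  rw [SecondDual.map_add, SecondDual.map_smul]
  have h1 : ∀ h : G →ᵇ ℝ, X (fun' μ ω h) = (rePart X h : ℂ) + (imPart X h : ℂ) * Complex.I :=
    fun h => (Complex.re_add_im _).symm
  rw [h1, h1, smul_eq_mul, smul_eq_mul]
  ring

/-- The discrete case: there is a non-zero `D ∈ L¹(G, ω)''` with `D □ X □ D = 0` for all `X`. -/
theorem discrete_case [Infinite G] (μ : Measure G) [μ.IsHaarMeasure] [μ.Regular] (ω : Weight G) :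
    ∃ D : SecondDual ℂ (L1 μ ω), D ≠ 0 ∧ D * D = 0 ∧
      ∀ X : SecondDual ℂ (L1 μ ω), D * X * D = 0 := by
  obtain ⟨D, hD, hX⟩ := core (twist ω)
  have hz : (tilde (0 : (G →ᵇ ℝ) →L[ℝ] ℝ) : SecondDual ℂ (L1 μ ω)) = 0 := by
    refine SecondDual.ext fun f => ?_
    rw [tilde_apply]
    simp [zero_apply']
  refine ⟨tilde D, ?_, ?_, ?_⟩
  · intro h0
    apply hD
    ext h
    have h1 : (tilde D : SecondDual ℂ (L1 μ ω)) (fun' μ ω h) = 0 := by rw [h0]; rfl
    rw [tilde_apply, hRe_fun', hIm_fun', map_zero, Complex.ofReal_zero, zero_mul, add_zero] at h1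
    exact Complex.ofReal_eq_zero.1 h1
  · -- evaluation at `1` is a right identity
    have h1 : ∃ P : (G →ᵇ ℝ) →L[ℝ] ℝ, (twist ω).box D P = D := by
      refine ⟨BoundedContinuousFunction.evalCLM ℝ (1 : G), ?_⟩
      ext h
      have h2 : (twist ω).T (BoundedContinuousFunction.evalCLM ℝ (1 : G)) h = h := by
        ext s
        rw [Twist.T_apply, BoundedContinuousFunction.evalCLM_apply, Twist.M_apply, mul_one]
        have h3 : (twist ω).Ω s 1 = 1 := by
          change ω (s * 1) / (ω s * ω 1) = 1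
          rw [mul_one, ω.one, mul_one, div_self (ω.pos s).ne']
        rw [h3, one_mul]
      rw [Twist.box_apply, h2]
    obtain ⟨P, hP⟩ := h1
    have h2 := hX P
    rw [hP] at h2
    rw [tilde_mul, h2, hz]
  · intro X
    rw [eq_tilde X, mul_add, add_mul, mul_smul_comm, smul_mul_assoc, tilde_mul, tilde_mul,
      tilde_mul, tilde_mul, hX, hX, hz, smul_zero, add_zero]

end Pool.Agent.H19.Beurling
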