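import Mathlib

set_option autoImplicit false
set_option maxSynthPendingDepth 5
set_option linter.unusedSectionVars false

open MeasureTheory Measure Set Filter Topology
open scoped ENNReal NNReal

namespace Pool.Agent.H19.Beurling

/-- A *weight* on a topological group `G`: a continuous function `ω : G → (0, ∞)` with
`ω (s t) ≤ ω s * ω t` and `ω 1 = 1`. -/
structure Weight (G : Type*) [Group G] [TopologicalSpace G] where
  /-- the underlying function -/
  toFun : G → ℝ
  continuous_toFun : Continuous toFun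
  pos' : ∀ s, 0 < toFun s
  mul_le' : ∀ s t, toFun (s * t) ≤ toFun s * toFun t
  one' : toFun 1 = 1

namespace Weight

variable {G : Type*} [Group G] [TopologicalSpace G]

instance : CoeFun (Weight G) (fun _ => G → ℝ) := ⟨Weight.toFun⟩

theorem continuous (ω : Weight G) : Continuous (ω : G → ℝ) := ω.continuous_toFun
theorem pos (ω : Weight G) (s : G) : 0 < ω s := ω.pos' s
theorem mul_le (ω : Weight G) (s t : G) : ω (s * t) ≤ ω s * ω t := ω.mul_le' s t
theorem one (ω : Weight G) : ω 1 = 1 := ω.one'

/-- The weighted measure `ω dμ` on `G`. -/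
noncomputable def measure [MeasurableSpace G] (ω : Weight G) (μ : Measure G) : Measure G :=
  μ.withDensity (fun s => ENNReal.ofReal (ω s))

end Weight

section

variable {G : Type*} [Group G] [TopologicalSpace G] [MeasurableSpace G]

/-- The space `L¹(G, ω)` of (classes of) measurable functions `f : G → ℂ` with
`‖f‖ = ∫ |f| ω dμ < ∞`, as a Banach space. -/
abbrev L1 (μ : Measure G) (ω : Weight G) : Type _ := Lp ℂ 1 (ω.measure μ)

variable {μ : Measure G} {ω : Weight G}

/-- The class in `L¹(G, ω)` of an integrable function. -/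
noncomputable def L1.mk (f : G → ℂ) (hf : Integrable f (ω.measure μ)) : L1 μ ω :=
  (memLp_one_iff_integrable.2 hf).toLp f

theorem L1.coeFn_mk (f : G → ℂ) (hf : Integrable f (ω.measure μ)) :
    (L1.mk f hf : L1 μ ω) =ᵐ[ω.measure μ] f :=
  MemLp.coeFn_toLp (memLp_one_iff_integrable.2 hf)

theorem L1.integrable (f : L1 μ ω) : Integrable f (ω.measure μ) :=
  memLp_one_iff_integrable.1 (Lp.memLp f)

theorem L1.ext {f g : L1 μ ω} (h : f =ᵐ[ω.measure μ] g) : f = g :=
  Lp.ext h

theorem L1.coeFn_add (f g : L1 μ ω) : (f + g : L1 μ ω) =ᵐ[ω.measure μ] fun s => f s + g s :=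
  Lp.coeFn_add f g

theorem L1.coeFn_sub (f g : L1 μ ω) : (f - g : L1 μ ω) =ᵐ[ω.measure μ] fun s => f s - g s :=
  Lp.coeFn_sub f g

theorem L1.coeFn_smul (c : ℂ) (f : L1 μ ω) :
    (c • f : L1 μ ω) =ᵐ[ω.measure μ] fun s => c * f s :=
  Lp.coeFn_smul c f

theorem L1.norm_eq (f : L1 μ ω) : ‖f‖ = ∫ s, ‖f s‖ ∂(ω.measure μ) :=
  MeasureTheory.L1.norm_eq_integral_norm f

end

section

variable {G : Type*} [Group G] [TopologicalSpace G] [MeasurableSpace G] [BorelSpace G]
variable {μ : Measure G} {ω : Weight G}

theorem Weight.measurable (ω : Weight G) : Measurable (ω : G → ℝ) := ω.continuous.measurable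

theorem Weight.measurable_ofReal (ω : Weight G) :
    Measurable (fun s => ENNReal.ofReal (ω s)) := ω.measurable.ennreal_ofReal

theorem ae_measure_iff {p : G → Prop} : (∀ᵐ s ∂(ω.measure μ), p s) ↔ ∀ᵐ s ∂μ, p s := by
  rw [Weight.measure, ae_withDensity_iff ω.measurable_ofReal]
  constructor
  · intro h
    filter_upwards [h] with s hs
    exact hs (by simpa using ω.pos s)
  · intro h
    filter_upwards [h] with s hs
    exact fun _ => hs

theorem integrable_measure_iff {E : Type*} [NormedAddCommGroup E] [NormedSpace ℝ E] {f : G → E} :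
    Integrable f (ω.measure μ) ↔ Integrable (fun s => ω s • f s) μ := by
  rw [Weight.measure, integrable_withDensity_iff_integrable_smul' ω.measurable_ofReal
    (Eventually.of_forall fun s => ENNReal.ofReal_lt_top)]
  simp only [ENNReal.toReal_ofReal (ω.pos _).le]

theorem integral_measure {E : Type*} [NormedAddCommGroup E] [NormedSpace ℝ E] (f : G → E) :
    ∫ s, f s ∂(ω.measure μ) = ∫ s, ω s • f s ∂μ := by
  rw [Weight.measure, integral_withDensity_eq_integral_toReal_smul ω.measurable_ofReal
    (Eventually.of_forall fun s => ENNReal.ofReal_lt_top)]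
  simp only [ENNReal.toReal_ofReal (ω.pos _).le]

/-- The norm of `L¹(G, ω)` is `∫ |f| ω dμ`. -/
theorem L1.norm_def (f : L1 μ ω) : ‖f‖ = ∫ s, ω s * ‖f s‖ ∂μ := by
  rw [L1.norm_eq, integral_measure]; rfl

theorem L1.integrable_mul (f : L1 μ ω) : Integrable (fun s => ω s * ‖f s‖) μ := by
  have := integrable_measure_iff.1 f.integrable.norm
  exact this

end

section translate

variable {G : Type*} [Group G] [TopologicalSpace G] [IsTopologicalGroup G] [MeasurableSpace G]
  [BorelSpace G]
variable {μ : Measure G} [μ.IsMulLeftInvariant] {ω : Weight G}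

theorem map_mul_left_le (s : G) :
    (ω.measure μ).map (fun t => s⁻¹ * t) ≤ ENNReal.ofReal (ω s) • ω.measure μ := by
  refine Measure.le_iff.2 fun E hE => ?_
  have hm : Measurable (fun t : G => s⁻¹ * t) := measurable_const_mul s⁻¹
  rw [map_apply hm hE, Weight.measure, withDensity_apply _ (hm hE), Measure.smul_apply,
    withDensity_apply _ hE, ← lintegral_indicator (hm hE), ← lintegral_indicator hE]
  rw [← lintegral_mul_left_eq_self _ s, smul_eq_mul,
    ← lintegral_const_mul _ (ω.measurable_ofReal.indicator hE)]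
  refine lintegral_mono fun t => ?_
  by_cases ht : t ∈ E
  · have h2 : s * t ∈ (fun t : G => s⁻¹ * t) ⁻¹' E := by simpa using ht
    simp only [Set.indicator_of_mem h2, Set.indicator_of_mem ht]
    rw [← ENNReal.ofReal_mul (ω.pos s).le]
    exact ENNReal.ofReal_le_ofReal (ω.mul_le s t)
  · have h2 : s * t ∉ (fun t : G => s⁻¹ * t) ⁻¹' E := by simpa using ht
    simp [Set.indicator_of_notMem h2]

theorem integrable_comp_mul_left {E : Type*} [NormedAddCommGroup E] {f : G → E}
    (hf : Integrable f (ω.measure μ)) (s : G) :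
    Integrable (fun t => f (s⁻¹ * t)) (ω.measure μ) := by
  have h1 : Integrable f ((ω.measure μ).map (fun t => s⁻¹ * t)) :=
    hf.of_measure_le_smul ENNReal.ofReal_ne_top (map_mul_left_le s)
  exact h1.comp_measurable (measurable_const_mul s⁻¹)

theorem quasi_mul_left (s : G) :
    QuasiMeasurePreserving (fun t => s⁻¹ * t) (ω.measure μ) (ω.measure μ) :=
  ⟨measurable_const_mul s⁻¹, absolutelyContinuous_of_le_smul (map_mul_left_le s)⟩

/-- The left translate `L_s f : t ↦ f (s⁻¹ t)` of `f ∈ L¹(G, ω)`. -/
noncomputable def translateFun (s : G) (f : L1 μ ω) : L1 μ ω :=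
  L1.mk (fun t => f (s⁻¹ * t)) (integrable_comp_mul_left (L1.integrable f) s)

theorem translateFun_add (s : G) (f g : L1 μ ω) :
    translateFun s (f + g) = translateFun s f + translateFun s g := by
  apply L1.ext
  filter_upwards [L1.coeFn_mk _ (integrable_comp_mul_left (L1.integrable (f + g)) s),
    L1.coeFn_mk _ (integrable_comp_mul_left (L1.integrable f) s),
    L1.coeFn_mk _ (integrable_comp_mul_left (L1.integrable g) s),
    L1.coeFn_add (translateFun s f) (translateFun s g),
    (quasi_mul_left (μ := μ) (ω := ω) s).ae (L1.coeFn_add f g)] with t h1 h2 h3 h4 h5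
  exact (h1.trans h5).trans ((congrArg₂ (· + ·) h2 h3).symm.trans h4.symm)

theorem translateFun_smul (s : G) (c : ℂ) (f : L1 μ ω) :
    translateFun s (c • f) = c • translateFun s f := by
  apply L1.ext
  filter_upwards [L1.coeFn_mk _ (integrable_comp_mul_left (L1.integrable (c • f)) s),
    L1.coeFn_mk _ (integrable_comp_mul_left (L1.integrable f) s),
    L1.coeFn_smul c (translateFun s f),
    (quasi_mul_left (μ := μ) (ω := ω) s).ae (L1.coeFn_smul c f)] with t h1 h2 h3 h4
  exact (h1.trans h4).trans ((congrArg (c * ·) h2).symm.trans h3.symm)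

theorem norm_translateFun_le (s : G) (f : L1 μ ω) : ‖translateFun s f‖ ≤ ω s * ‖f‖ := by
  rw [L1.norm_eq]
  have h1 : ∫ t, ‖(translateFun s f : L1 μ ω) t‖ ∂(ω.measure μ) =
      ∫ t, ‖f (s⁻¹ * t)‖ ∂(ω.measure μ) := by
    refine integral_congr_ae ?_
    filter_upwards [L1.coeFn_mk _ (integrable_comp_mul_left (L1.integrable f) s)] with t ht
    exact congrArg norm ht
  refine h1.trans_le ?_
  have h2 : ∫ t, ‖f (s⁻¹ * t)‖ ∂(ω.measure μ) =
      ∫ t, ‖f t‖ ∂((ω.measure μ).map (fun t => s⁻¹ * t)) := by
    rw [integral_map (measurable_const_mul s⁻¹).aemeasurable]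
    exact ((L1.integrable f).of_measure_le_smul ENNReal.ofReal_ne_top
      (map_mul_left_le s)).norm.aestronglyMeasurable
  rw [h2]
  have h3 : ∫ t, ‖f t‖ ∂((ω.measure μ).map (fun t => s⁻¹ * t)) ≤
      ∫ t, ‖f t‖ ∂(ENNReal.ofReal (ω s) • ω.measure μ) := by
    refine integral_mono_measure (map_mul_left_le s)
      (Eventually.of_forall fun t => norm_nonneg _) ?_
    exact (L1.integrable f).norm.smul_measure ENNReal.ofReal_ne_top
  refine h3.trans_eq ?_
  rw [integral_smul_measure, ENNReal.toReal_ofReal (ω.pos s).le, L1.norm_eq, smul_eq_mul]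

/-- The left translation `f ↦ L_s f`, `L_s f : t ↦ f (s⁻¹ t)`, as a bounded linear operator on
`L¹(G, ω)` of norm at most `ω s`. -/
noncomputable def translate (s : G) : L1 μ ω →L[ℂ] L1 μ ω :=
  LinearMap.mkContinuous
    { toFun := translateFun s
      map_add' := translateFun_add s
      map_smul' := translateFun_smul s } (ω s) (norm_translateFun_le s)

theorem coeFn_translate (s : G) (f : L1 μ ω) :
    (translate s f : L1 μ ω) =ᵐ[ω.measure μ] fun t => f (s⁻¹ * t) :=
  L1.coeFn_mk _ (integrable_comp_mul_left (L1.integrable f) s)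

theorem norm_translate_le (s : G) (f : L1 μ ω) : ‖translate s f‖ ≤ ω s * ‖f‖ :=
  (translate s : L1 μ ω →L[ℂ] L1 μ ω).le_of_opNorm_le
    (LinearMap.mkContinuous_norm_le _ (ω.pos s).le _) f

theorem translate_mul (s t : G) (f : L1 μ ω) : translate (s * t) f = translate s (translate t f) := by
  apply L1.ext
  filter_upwards [coeFn_translate (s * t) f, coeFn_translate s (translate t f),
    (quasi_mul_left (μ := μ) (ω := ω) s).ae (coeFn_translate t f)] with x h1 h2 h3
  rw [h1, h2, h3, mul_inv_rev, mul_assoc]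

end translate

end Pool.Agent.H19.Beurling
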