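import Mathlib

set_option autoImplicit false
set_option linter.unusedSectionVars false

open MeasureTheory Measure Set Filter Topology
open scoped ENNReal NNReal Pointwise

namespace Pool.Agent.H19.Beurling

variable {G : Type*} [Group G] [TopologicalSpace G] [IsTopologicalGroup G] [T2Space G]
  [LocallyCompactSpace G]

section pseudo

/-- The left-invariant pseudo-length `p(x) = sup_t |φ(x⁻¹ t) - φ(t)|`. -/
noncomputable def plen (φ : G → ℝ) (x : G) : ℝ := ⨆ t, |φ (x⁻¹ * t) - φ t|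

variable {φ : G → ℝ} (h01 : ∀ x, φ x ∈ Icc (0 : ℝ) 1)
include h01

theorem plen_bdd (x : G) : BddAbove (range fun t => |φ (x⁻¹ * t) - φ t|) := by
  refine ⟨1, ?_⟩
  rintro _ ⟨t, rfl⟩
  have h1 := h01 (x⁻¹ * t)
  have h2 := h01 t
  exact abs_sub_le_iff.2 ⟨by linarith [h1.2, h2.1], by linarith [h2.2, h1.1]⟩

theorem le_plen (x t : G) : |φ (x⁻¹ * t) - φ t| ≤ plen φ x := le_ciSup (plen_bdd h01 x) t

omit h01 in
theorem plen_le {x : G} {c : ℝ} (h : ∀ t, |φ (x⁻¹ * t) - φ t| ≤ c) : plen φ x ≤ c := ciSup_le h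

theorem plen_nonneg (x : G) : 0 ≤ plen φ x := (abs_nonneg _).trans (le_plen h01 x 1)

theorem plen_one : plen φ 1 = 0 :=
  le_antisymm (plen_le fun t => by simp) (plen_nonneg h01 1)

theorem plen_inv_le (x : G) : plen φ x⁻¹ ≤ plen φ x := by
  refine plen_le fun t => ?_
  have := le_plen h01 x (x * t)
  rw [inv_mul_cancel_left] at this
  rw [inv_inv, abs_sub_comm]
  exact this

theorem plen_inv (x : G) : plen φ x⁻¹ = plen φ x :=
  le_antisymm (plen_inv_le h01 x) (by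
    have := plen_inv_le h01 x⁻¹
    rwa [inv_inv] at this)

theorem plen_mul_le (x y : G) : plen φ (x * y) ≤ plen φ x + plen φ y := by
  refine plen_le fun t => ?_
  have h1 := le_plen h01 y (x⁻¹ * t)
  have h2 := le_plen h01 x t
  rw [mul_inv_rev, mul_assoc]
  calc |φ (y⁻¹ * (x⁻¹ * t)) - φ t| ≤ |φ (y⁻¹ * (x⁻¹ * t)) - φ (x⁻¹ * t)| + |φ (x⁻¹ * t) - φ t| :=
        abs_sub_le _ _ _
    _ ≤ _ := by linarith

theorem plen_tendsto_one (hc : Continuous φ) (hs : HasCompactSupport φ) :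
    Tendsto (plen φ) (𝓝 1) (𝓝 0) := by
  rw [Metric.tendsto_nhds]
  intro ε hε
  obtain ⟨V, hVc, hV⟩ := exists_compact_mem_nhds (1 : G)
  have hK : IsCompact (V * tsupport φ ∪ tsupport φ) := (hVc.mul hs).union hs
  have h1 : ∀ᶠ x in 𝓝 (1 : G), ∀ t ∈ V * tsupport φ ∪ tsupport φ, |φ (x⁻¹ * t) - φ t| < ε / 2 := by
    refine hK.eventually_forall_of_forall_eventually fun t _ => ?_
    have h2 : Continuous fun z : G × G => |φ (z.1⁻¹ * z.2) - φ z.2| := by fun_prop
    have h3 := h2.tendsto ((1 : G), t)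
    simp only [inv_one, one_mul, sub_self, abs_zero] at h3
    exact h3.eventually_lt_const (half_pos hε)
  filter_upwards [h1, hV] with x hx hxV
  rw [Real.dist_eq, sub_zero, abs_of_nonneg (plen_nonneg h01 x)]
  refine (plen_le (c := ε / 2) fun t => ?_).trans_lt (half_lt_self hε)
  by_cases ht : t ∈ V * tsupport φ ∪ tsupport φ
  · exact (hx t ht).le
  · have h4 : φ t = 0 := by
      by_contra hne
      exact ht (Or.inr (subset_tsupport _ hne))
    have h5 : φ (x⁻¹ * t) = 0 := by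
      by_contra hne
      exact ht (Or.inl ⟨x, hxV, x⁻¹ * t, subset_tsupport _ hne, by simp⟩)
    rw [h4, h5]
    simpa using (half_pos hε).le

theorem plen_continuous (hc : Continuous φ) (hs : HasCompactSupport φ) :
    Continuous (plen φ) := by
  rw [continuous_iff_continuousAt]
  intro x
  have h1 : Tendsto (fun y => plen φ (x⁻¹ * y)) (𝓝 x) (𝓝 0) := by
    have h2 : Tendsto (fun y : G => x⁻¹ * y) (𝓝 x) (𝓝 1) := by
      have := (continuous_const_mul x⁻¹).tendsto x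
      rwa [inv_mul_cancel] at this
    exact (plen_tendsto_one h01 hc hs).comp h2
  rw [ContinuousAt, tendsto_iff_dist_tendsto_zero]
  refine squeeze_zero (fun y => dist_nonneg) (fun y => ?_) h1
  rw [Real.dist_eq]
  have h3 := plen_mul_le h01 x (x⁻¹ * y)
  rw [mul_inv_cancel_left] at h3
  have h4 := plen_mul_le h01 y (y⁻¹ * x)
  rw [mul_inv_cancel_left] at h4
  have h5 : plen φ (y⁻¹ * x) = plen φ (x⁻¹ * y) := by
    rw [← plen_inv h01 (y⁻¹ * x), mul_inv_rev, inv_inv]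
  rw [h5] at h4
  exact abs_sub_le_iff.2 ⟨by linarith, by linarith⟩

theorem plen_saturate (hc : Continuous φ) (hs : HasCompactSupport φ) (h1 : φ 1 = 1) {U : Set G}
    (hU : U ∈ 𝓝 (1 : G)) : ∃ δ > 0, ∀ x, plen φ x < δ → ∃ u ∈ U, plen φ u = plen φ x := by
  have hpc := plen_continuous h01 hc hs
  set O : Set G := {x | ∃ n, plen φ n = 0 ∧ x * n ∈ interior U} with hO
  have hOo : IsOpen O := by
    have : O = ⋃ n ∈ {n : G | plen φ n = 0}, (fun x => x * n) ⁻¹' interior U := by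
      ext x; simp [hO]
    rw [this]
    exact isOpen_biUnion fun n _ => isOpen_interior.preimage (continuous_mul_const n)
  set K : Set G := {x | plen φ x ≤ 1 / 2} \ O with hK
  have hKc : IsCompact K := by
    have hcl : IsClosed K := (isClosed_le hpc continuous_const).sdiff hOo
    have hsub : K ⊆ (tsupport φ)⁻¹ := by
      rintro x ⟨hx, -⟩
      have h2 := le_plen h01 x 1
      rw [mul_one, h1] at h2
      have hx' : plen φ x ≤ 1 / 2 := hx
      have h3 := (abs_le.1 (h2.trans hx')).1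
      refine Set.mem_inv.2 (subset_tsupport _ ?_)
      intro h0
      rw [h0] at h3
      norm_num at h3
    exact hs.isCompact.inv.of_isClosed_subset hcl hsub
  have hpos : ∀ x ∈ K, 0 < plen φ x := by
    rintro x ⟨-, hx⟩
    refine lt_of_le_of_ne (plen_nonneg h01 x) fun h0 => hx ?_
    refine ⟨x⁻¹, by rw [plen_inv h01, ← h0], ?_⟩
    rw [mul_inv_cancel]
    exact mem_interior_iff_mem_nhds.2 hU
  obtain ⟨m, hm, hmK⟩ : ∃ m > 0, ∀ x ∈ K, m ≤ plen φ x := by
    rcases K.eq_empty_or_nonempty with h | h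
    · exact ⟨1, one_pos, by simp [h]⟩
    · obtain ⟨x, hx, hmin⟩ := hKc.exists_isMinOn h hpc.continuousOn
      exact ⟨plen φ x, hpos x hx, fun y hy => hmin hy⟩
  refine ⟨min m (1 / 2), lt_min hm (by norm_num), fun x hx => ?_⟩
  have hxO : x ∈ O := by
    by_contra h
    have h2 : x ∈ K := ⟨(hx.trans_le (min_le_right _ _)).le, h⟩
    exact absurd (hmK x h2) (not_le.2 (hx.trans_le (min_le_left _ _)))
  obtain ⟨n, hn, hxn⟩ := hxO
  refine ⟨x * n, interior_subset hxn, le_antisymm ?_ ?_⟩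
  · have := plen_mul_le h01 x n
    rw [hn, add_zero] at this
    exact this
  · have := plen_mul_le h01 (x * n) n⁻¹
    rw [mul_inv_cancel_right, plen_inv h01, hn, add_zero] at this
    exact this

end pseudo

/-- In a non-discrete locally compact group there is `φ ∈ C_c(G, [0,1])` with `φ 1 = 1` such that
`φ⁻¹ {1}` is not a neighbourhood of `1`. -/
theorem exists_peak [(𝓝[≠] (1 : G)).NeBot] :
    ∃ φ : G → ℝ, Continuous φ ∧ HasCompactSupport φ ∧ (∀ x, φ x ∈ Icc (0 : ℝ) 1) ∧ φ 1 = 1 ∧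
      φ ⁻¹' {1} ∉ 𝓝 (1 : G) := by
  borelize G
  let μ : Measure G := haar
  have hstep : ∀ (O : Set G) (n : ℕ), O ∈ 𝓝 (1 : G) → ∃ K : Set G, IsCompact K ∧ K ∈ 𝓝 (1 : G) ∧
      K ⊆ interior O ∧ μ K ≤ 1 / ((n : ℝ≥0∞) + 1) := by
    intro O n hO
    have h1 : μ {(1 : G)} < 1 / ((n : ℝ≥0∞) + 1) := by
      rw [measure_singleton]
      simp
    obtain ⟨U, hU1, hUo, hUμ⟩ := Set.exists_isOpen_lt_of_lt _ _ h1
    have h2 : U ∩ interior O ∈ 𝓝 (1 : G) :=
      inter_mem (hUo.mem_nhds (hU1 rfl)) (isOpen_interior.mem_nhds (mem_interior_iff_mem_nhds.2 hO))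
    obtain ⟨K, hK1, hK2, hK3⟩ := local_compact_nhds h2
    exact ⟨K, hK3, hK1, hK2.trans inter_subset_right,
      (measure_mono (hK2.trans inter_subset_left)).trans hUμ.le⟩
  choose F hF1 hF2 hF3 hF4 using hstep
  let V : ℕ → {K : Set G // K ∈ 𝓝 (1 : G)} := fun n =>
    Nat.rec ⟨univ, univ_mem⟩ (fun n K => ⟨F K.1 n K.2, hF2 K.1 n K.2⟩) n
  have hV : ∀ n, (V (n + 1)).1 = F (V n).1 n (V n).2 := fun n => rfl
  set s : Set G := ⋂ n, (V (n + 1)).1 with hs
  have hs' : s = ⋂ n, interior (V (n + 1)).1 := by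
    apply Subset.antisymm
    · refine subset_iInter fun n => ?_
      have : (V (n + 2)).1 ⊆ interior (V (n + 1)).1 := by rw [hV (n + 1)]; exact hF3 _ _ _
      exact (iInter_subset (fun n => (V (n + 1)).1) (n + 1)).trans this
    · exact iInter_mono fun n => interior_subset
  have hsG : IsGδ s := by
    rw [hs']; exact IsGδ.iInter_of_isOpen fun n => isOpen_interior
  have hsc : IsCompact s := by
    have h1 : ∀ n, IsCompact (V (n + 1)).1 := fun n => by rw [hV n]; exact hF1 _ _ _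
    exact (h1 0).of_isClosed_subset (isClosed_iInter fun n => (h1 n).isClosed)
      (iInter_subset (fun n => (V (n + 1)).1) 0)
  have hs0 : μ s = 0 := by
    have h1 : ∀ n : ℕ, μ s ≤ 1 / ((n : ℝ≥0∞) + 1) := fun n =>
      (measure_mono (iInter_subset (fun n => (V (n + 1)).1) n)).trans (by
        rw [hV n]; exact hF4 _ _ _)
    have h2 : Tendsto (fun n : ℕ => 1 / ((n : ℝ≥0∞) + 1)) atTop (𝓝 0) := by
      have h3 := ENNReal.tendsto_inv_nat_nhds_zero.comp (tendsto_add_atTop_nat 1)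
      refine h3.congr fun n => ?_
      simp
    exact le_antisymm (ge_of_tendsto' h2 h1) zero_le
  have h1s : (1 : G) ∈ s := mem_iInter.2 fun n => mem_of_mem_nhds (V (n + 1)).2
  have hnot : s ∉ 𝓝 (1 : G) := fun h => (measure_pos_of_mem_nhds μ h).ne' hs0
  obtain ⟨φ, h1, -, h2, h3⟩ := exists_continuous_one_zero_of_isCompact_of_isGδ hsc hsG isClosed_empty
    (disjoint_empty s)
  refine ⟨φ, φ.continuous, h2, h3, ?_, ?_⟩
  · have : (1 : G) ∈ φ ⁻¹' {1} := h1 ▸ h1s
    simpa using this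
  · rw [← h1]; exact hnot

theorem exists_fast_seq {α : Type*} (p : α → ℝ) (hval : ∀ δ > 0, ∃ x, 0 < p x ∧ p x < δ) :
    ∃ r : ℕ → α, (∀ n, 0 < p (r n)) ∧ (∀ n, p (r n) ≤ (1 / 4) ^ n) ∧
      ∀ m n, m < n → p (r n) < p (r m) / 4 := by
  obtain ⟨x₀, hx₀, hx₀'⟩ := hval 1 one_pos
  have hstep : ∀ x : {x // 0 < p x}, ∃ y : {x // 0 < p x}, p y.1 < p x.1 / 4 := by
    rintro ⟨x, hx⟩
    obtain ⟨y, hy1, hy2⟩ := hval (p x / 4) (by positivity)
    exact ⟨⟨y, hy1⟩, hy2⟩
  choose f hf using hstep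
  have hs1 : ∀ n, p (f^[n + 1] ⟨x₀, hx₀⟩).1 < p (f^[n] ⟨x₀, hx₀⟩).1 / 4 := by
    intro n
    rw [Function.iterate_succ_apply']
    exact hf _
  refine ⟨fun n => (f^[n] ⟨x₀, hx₀⟩).1, fun n => (f^[n] ⟨x₀, hx₀⟩).2, ?_, ?_⟩
  · intro n
    induction n with
    | zero => simpa using hx₀'.le
    | succ n ih =>
      rw [pow_succ]
      have := hs1 n
      simp only at ih ⊢
      linarith
  · intro m n hmn
    induction n, hmn using Nat.le_induction with
    | base => exact hs1 m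
    | succ n _ ih =>
      have h1 := hs1 n
      have h2 := (f^[n] ⟨x₀, hx₀⟩).2
      simp only at ih ⊢
      linarith

/-- In a non-discrete locally compact group there are two disjoint symmetric open sets both
accumulating at `1`. -/
theorem exists_two_open [(𝓝[≠] (1 : G)).NeBot] :
    ∃ E E' : Set G, IsOpen E ∧ IsOpen E' ∧ Disjoint E E' ∧ (∀ x ∈ E, x⁻¹ ∈ E) ∧
      (∀ x ∈ E', x⁻¹ ∈ E') ∧ (∀ U ∈ 𝓝 (1 : G), (U ∩ E).Nonempty) ∧
      (∀ U ∈ 𝓝 (1 : G), (U ∩ E').Nonempty) := by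
  obtain ⟨φ, hc, hs, h01, h1, hnot⟩ := exists_peak (G := G)
  have hpc := plen_continuous h01 hc hs
  have hval : ∀ δ > 0, ∃ x, 0 < plen φ x ∧ plen φ x < δ := by
    intro δ hδ
    by_contra hcon
    push Not at hcon
    apply hnot
    have h2 : {x | plen φ x < δ} ∈ 𝓝 (1 : G) := by
      refine (isOpen_lt hpc continuous_const).mem_nhds ?_
      change plen φ 1 < δ
      rw [plen_one h01]; exact hδ
    have h3 : (fun x : G => x⁻¹) ⁻¹' {x | plen φ x < δ} ∈ 𝓝 (1 : G) :=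
      continuous_inv.continuousAt.preimage_mem_nhds (by simpa using h2)
    filter_upwards [h3] with x hx
    have hx' : plen φ x⁻¹ < δ := hx
    have h4 : plen φ x⁻¹ = 0 := by
      by_contra hne
      have h5 := hcon x⁻¹ (lt_of_le_of_ne (plen_nonneg h01 _) (Ne.symm hne))
      linarith
    have h5 := le_plen h01 x⁻¹ 1
    rw [h4, inv_inv, mul_one, h1] at h5
    have h6 := abs_eq_zero.1 (le_antisymm h5 (abs_nonneg _))
    simpa [sub_eq_zero] using h6
  obtain ⟨r, hr0, hr2, hr3⟩ := exists_fast_seq (plen φ) hval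
  let J : ℕ → Set G := fun n => {x | plen φ (r n) / 2 < plen φ x ∧ plen φ x < 2 * plen φ (r n)}
  have hJo : ∀ n, IsOpen (J n) := fun n =>
    (isOpen_lt continuous_const hpc).inter (isOpen_lt hpc continuous_const)
  have hJd : ∀ m n, m ≠ n → Disjoint (J m) (J n) := by
    have key : ∀ m n, m < n → Disjoint (J m) (J n) := by
      intro m n hmn
      rw [Set.disjoint_left]
      rintro x ⟨hx1, -⟩ ⟨-, hx2⟩
      have := hr3 m n hmn
      linarith
    intro m n hmn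
    rcases lt_or_gt_of_ne hmn with h | h
    · exact key m n h
    · exact (key n m h).symm
  have hJi : ∀ n, ∀ x ∈ J n, x⁻¹ ∈ J n := by
    rintro n x ⟨hx1, hx2⟩
    refine ⟨?_, ?_⟩
    · rw [plen_inv h01]; exact hx1
    · rw [plen_inv h01]; exact hx2
  have hJU : ∀ U ∈ 𝓝 (1 : G), ∃ N, ∀ n ≥ N, (U ∩ J n).Nonempty := by
    intro U hU
    obtain ⟨δ, hδ, hsat⟩ := plen_saturate h01 hc hs h1 hU
    obtain ⟨N, hN⟩ := exists_pow_lt_of_lt_one hδ (show (1 / 4 : ℝ) < 1 by norm_num)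
    refine ⟨N, fun n hn => ?_⟩
    have h2 : plen φ (r n) < δ :=
      ((hr2 n).trans (pow_le_pow_of_le_one (by norm_num) (by norm_num) hn)).trans_lt hN
    obtain ⟨u, hu, hpu⟩ := hsat _ h2
    have := hr0 n
    exact ⟨u, hu, by rw [hpu]; linarith, by rw [hpu]; linarith⟩
  refine ⟨⋃ n, J (2 * n), ⋃ n, J (2 * n + 1), isOpen_iUnion fun n => hJo _,
    isOpen_iUnion fun n => hJo _, ?_, ?_, ?_, ?_, ?_⟩
  · rw [Set.disjoint_iUnion_left]
    intro m
    rw [Set.disjoint_iUnion_right]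
    intro n
    exact hJd _ _ (by omega)
  · intro x hx
    obtain ⟨n, hn⟩ := mem_iUnion.1 hx
    exact mem_iUnion.2 ⟨n, hJi _ _ hn⟩
  · intro x hx
    obtain ⟨n, hn⟩ := mem_iUnion.1 hx
    exact mem_iUnion.2 ⟨n, hJi _ _ hn⟩
  · intro U hU
    obtain ⟨N, hN⟩ := hJU U hU
    obtain ⟨x, hx1, hx2⟩ := hN (2 * N) (by omega)
    exact ⟨x, hx1, mem_iUnion.2 ⟨N, hx2⟩⟩
  · intro U hU
    obtain ⟨N, hN⟩ := hJU U hU
    obtain ⟨x, hx1, hx2⟩ := hN (2 * N + 1) (by omega)
    exact ⟨x, hx1, mem_iUnion.2 ⟨N, hx2⟩⟩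

end Pool.Agent.H19.Beurling
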