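import Pool.Agent.H19.Beurling.Conv
import Pool.Agent.H19.Beurling.Arens
import Pool.Agent.H19.Beurling.Osc
import Pool.Agent.H19.WeakStar

set_option autoImplicit false
set_option maxSynthPendingDepth 5
set_option linter.unusedSectionVars false

open MeasureTheory Measure Set Filter Topology
open scoped ENNReal NNReal Pointwise

namespace Pool.Agent.H19.Beurling

variable {G : Type*} [Group G] [TopologicalSpace G] [IsTopologicalGroup G] [T2Space G]
  [LocallyCompactSpace G] [MeasurableSpace G] [BorelSpace G]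
variable {μ : Measure G} [μ.IsHaarMeasure] {ω : Weight G}

/-- A symmetric continuous probability density supported in `S`. -/
structure Bump (μ : Measure G) (S : Set G) (e : G → ℝ) : Prop where
  cont : Continuous e
  supp : HasCompactSupport e
  nonneg : ∀ t, 0 ≤ e t
  symm : ∀ t, e t⁻¹ = e t
  int : ∫ t, e t ∂μ = 1
  zero : ∀ t, t ∉ S → e t = 0

theorem Bump.mono {S T : Set G} {e : G → ℝ} (h : Bump μ S e) (hST : S ⊆ T) : Bump μ T e :=
  { h with zero := fun t ht => h.zero t fun h' => ht (hST h') }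

theorem exists_bump {S : Set G} (hS : IsOpen S) (hsym : ∀ t ∈ S, t⁻¹ ∈ S) (hne : S.Nonempty) :
    ∃ e, Bump μ S e := by
  obtain ⟨u, hu⟩ := hne
  obtain ⟨f, f1, f0, fs, fr⟩ := exists_continuous_one_zero_of_isCompact (isCompact_singleton (x := u))
    hS.isClosed_compl (by simpa using hu)
  set g : G → ℝ := fun t => f t + f t⁻¹ with hg
  have hgc : Continuous g := f.continuous.add (f.continuous.comp continuous_inv)
  have hgs : HasCompactSupport g := fs.add (fs.comp_homeomorph (Homeomorph.inv G))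
  have hg0 : ∀ t, 0 ≤ g t := fun t => add_nonneg (fr t).1 (fr t⁻¹).1
  have hgu : g u ≠ 0 := by
    have h1 : f u = 1 := f1 rfl
    have h2 := (fr u⁻¹).1
    rw [hg]; simp only [h1]; positivity
  have hpos : 0 < ∫ t, g t ∂μ :=
    hgc.integral_pos_of_hasCompactSupport_nonneg_nonzero hgs hg0 hgu
  refine ⟨fun t => (∫ t, g t ∂μ)⁻¹ * g t, continuous_const.mul hgc, ?_, ?_, ?_, ?_, ?_⟩
  · exact hgs.mul_left
  · exact fun t => mul_nonneg (inv_nonneg.2 hpos.le) (hg0 t)
  · intro t
    rw [hg]; simp only [inv_inv, add_comm]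
  · rw [integral_const_mul, inv_mul_cancel₀ hpos.ne']
  · intro t ht
    have h1 : f t = 0 := f0 ht
    have h2 : f t⁻¹ = 0 := f0 (fun h => ht (by simpa using hsym _ h))
    rw [hg]; simp [h1, h2]

/-- The element of `L¹(G, ω)` given by a bump. -/
noncomputable def bumpL (ω : Weight G) {S : Set G} {e : G → ℝ} (h : Bump μ S e) : L1 μ ω :=
  ofCc μ ω (fun t => (e t : ℂ)) (Complex.continuous_ofReal.comp h.cont)
    (h.supp.comp_left (g := fun x : ℝ => (x : ℂ)) Complex.ofReal_zero)

theorem coeFn_bumpL {S : Set G} {e : G → ℝ} (h : Bump μ S e) :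
    (bumpL ω h : L1 μ ω) =ᵐ[ω.measure μ] fun t => (e t : ℂ) :=
  coeFn_ofCc _ _

theorem norm_bumpL_le {S : Set G} {e : G → ℝ} (h : Bump μ S e) (hS : ∀ t ∈ S, ω t ≤ 2) :
    ‖bumpL ω h‖ ≤ 2 := by
  rw [L1.norm_def]
  have h1 : ∫ s, ω s * ‖(bumpL ω h : L1 μ ω) s‖ ∂μ = ∫ s, ω s * e s ∂μ := by
    refine integral_congr_ae ?_
    filter_upwards [ae_measure_iff.1 (coeFn_bumpL (ω := ω) h)] with s hs
    rw [hs, Complex.norm_real, Real.norm_of_nonneg (h.nonneg s)]
  rw [h1]
  have h2 : ∫ s, ω s * e s ∂μ ≤ ∫ s, 2 * e s ∂μ := by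
    refine integral_mono
      ((ω.continuous.mul h.cont).integrable_of_hasCompactSupport h.supp.mul_left)
      ((continuous_const.mul h.cont).integrable_of_hasCompactSupport h.supp.mul_left) fun s => ?_
    by_cases hs : s ∈ S
    · exact mul_le_mul_of_nonneg_right (hS s hs) (h.nonneg s)
    · simp [h.zero s hs]
  refine h2.trans_eq ?_
  rw [integral_const_mul, h.int, mul_one]

variable [μ.Regular]

theorem approx_cc {h : G → ℂ} (hc : Continuous h) (hs : HasCompactSupport h) {ε : ℝ}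
    (hε : 0 < ε) : ∃ U ∈ 𝓝 (1 : G), ∀ e, ∀ he : Bump μ U e,
      ‖ofCc μ ω h hc hs * bumpL ω he - ofCc μ ω h hc hs‖ ≤ ε := by
  obtain ⟨V, hVc, hV⟩ := exists_compact_mem_nhds (1 : G)
  set K : Set G := tsupport h * V⁻¹ ∪ tsupport h with hK
  have hKc : IsCompact K := (hs.mul hVc.inv).union hs
  set δ : ℝ := ε / ((ω.measure μ).real K + 1) with hδ
  have hνK : 0 ≤ (ω.measure μ).real K := measureReal_nonneg
  have hδ0 : 0 < δ := by positivity
  have h1 : ∀ᶠ x in 𝓝 (1 : G), ∀ t ∈ K, ‖h (t * x) - h t‖ < δ := by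
    refine hKc.eventually_forall_of_forall_eventually fun t _ => ?_
    have h2 : Continuous fun z : G × G => ‖h (z.2 * z.1) - h z.2‖ := by fun_prop
    have h3 := h2.tendsto ((1 : G), t)
    simp only [mul_one, sub_self, norm_zero] at h3
    exact h3.eventually_lt_const hδ0
  refine ⟨V ∩ {x | ∀ t ∈ K, ‖h (t * x) - h t‖ < δ}, inter_mem hV h1, fun e he => ?_⟩
  obtain ⟨hHc, hHs, hH⟩ := mul_ofCc (μ := μ) (ω := ω) hc hs
    (Complex.continuous_ofReal.comp he.cont)
    (he.supp.comp_left (g := fun x : ℝ => (x : ℂ)) Complex.ofReal_zero)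
  have hHb : ofCc μ ω h hc hs * bumpL ω he = ofCc μ ω _ hHc hHs := hH
  rw [hHb]
  -- pointwise estimate
  have hpt : ∀ t, ‖(∫ s, h s * (e (s⁻¹ * t) : ℂ) ∂μ) - h t‖ ≤ K.indicator (fun _ => δ) t := by
    intro t
    have hint1 : Integrable (fun s => h (t * s) * (e s : ℂ)) μ := by
      refine Continuous.integrable_of_hasCompactSupport (by
        have := he.cont
        fun_prop) ?_
      exact (he.supp.comp_left (g := fun x : ℝ => (x : ℂ)) Complex.ofReal_zero).mul_left
    have hint2 : Integrable (fun s => h t * (e s : ℂ)) μ := by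
      refine Continuous.integrable_of_hasCompactSupport (by
        have := he.cont
        fun_prop) ?_
      exact (he.supp.comp_left (g := fun x : ℝ => (x : ℂ)) Complex.ofReal_zero).mul_left
    have e1 : ∫ s, h s * (e (s⁻¹ * t) : ℂ) ∂μ = ∫ s, h (t * s) * (e s : ℂ) ∂μ := by
      rw [← integral_mul_left_eq_self _ t]
      refine integral_congr_ae (Eventually.of_forall fun s => ?_)
      simp only [mul_inv_rev, inv_mul_cancel_right, he.symm]
    have e2 : h t = ∫ s, h t * (e s : ℂ) ∂μ := by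
      rw [integral_const_mul, integral_complex_ofReal, he.int, Complex.ofReal_one, mul_one]
    have e3 : (∫ s, h s * (e (s⁻¹ * t) : ℂ) ∂μ) - h t =
        ∫ s, (h (t * s) - h t) * (e s : ℂ) ∂μ := by
      rw [e1]
      conv_lhs => rw [e2]
      rw [← integral_sub hint1 hint2]
      refine integral_congr_ae (Eventually.of_forall fun s => ?_)
      simp only [sub_mul]
    rw [e3]
    by_cases ht : t ∈ K
    · rw [Set.indicator_of_mem ht]
      have h4 : ‖∫ s, (h (t * s) - h t) * (e s : ℂ) ∂μ‖ ≤ ∫ s, δ * e s ∂μ := by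
        refine norm_integral_le_of_norm_le
          ((continuous_const.mul he.cont).integrable_of_hasCompactSupport he.supp.mul_left)
          (Eventually.of_forall fun s => ?_)
        by_cases hs' : s ∈ V ∩ {x | ∀ t ∈ K, ‖h (t * x) - h t‖ < δ}
        · rw [norm_mul, Complex.norm_real, Real.norm_of_nonneg (he.nonneg s)]
          exact mul_le_mul_of_nonneg_right (hs'.2 t ht).le (he.nonneg s)
        · simp [he.zero s hs']
      refine h4.trans_eq ?_
      rw [integral_const_mul, he.int, mul_one]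
    · rw [Set.indicator_of_notMem ht]
      have h5 : ∀ s, (h (t * s) - h t) * (e s : ℂ) = 0 := by
        intro s
        by_cases hs' : s ∈ V ∩ {x | ∀ t ∈ K, ‖h (t * x) - h t‖ < δ}
        · have h6 : h t = 0 := by
            by_contra hne
            exact ht (Or.inr (subset_tsupport _ hne))
          have h7 : h (t * s) = 0 := by
            by_contra hne
            exact ht (Or.inl ⟨t * s, subset_tsupport _ hne, s⁻¹, by simpa using hs'.1, by simp⟩)
          rw [h6, h7]; simp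
        · simp [he.zero s hs']
      simp [h5]
  rw [L1.norm_eq]
  have h8 : ∫ t, ‖(ofCc μ ω _ hHc hHs - ofCc μ ω h hc hs : L1 μ ω) t‖ ∂(ω.measure μ) ≤
      ∫ t, K.indicator (fun _ => δ) t ∂(ω.measure μ) := by
    refine integral_mono_ae (L1.integrable _).norm
      ((integrable_indicator_iff hKc.measurableSet).2
        (integrableOn_const hKc.measure_lt_top.ne)) ?_
    filter_upwards [L1.coeFn_sub (ofCc μ ω _ hHc hHs) (ofCc μ ω h hc hs),
      coeFn_ofCc (μ := μ) (ω := ω) hHc hHs, coeFn_ofCc (μ := μ) (ω := ω) hc hs] with t h1 h2 h3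
    rw [h1, h2, h3]
    exact hpt t
  refine h8.trans ?_
  rw [integral_indicator_const _ hKc.measurableSet, smul_eq_mul, hδ]
  rw [mul_div_assoc', div_le_iff₀ (by positivity)]
  nlinarith

/-- The bumps form a right approximate identity. -/
theorem approx (a : L1 μ ω) {ε : ℝ} (hε : 0 < ε) : ∃ U ∈ 𝓝 (1 : G), ∀ S e, ∀ he : Bump μ S e,
    S ⊆ U → (∀ t ∈ S, ω t ≤ 2) → ‖a * bumpL ω he - a‖ ≤ ε := by
  obtain ⟨h, hc, hs, hle⟩ := dense_cc a (ε := ε / 6) (by positivity)
  obtain ⟨U, hU, hUe⟩ := approx_cc (μ := μ) (ω := ω) hc hs (ε := ε / 6) (by positivity)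
  refine ⟨U, hU, fun S e he hSU hS2 => ?_⟩
  have h1 := hUe e (he.mono hSU)
  have h1' : ‖ofCc μ ω h hc hs * bumpL ω he - ofCc μ ω h hc hs‖ ≤ ε / 6 := h1
  have h2 := norm_bumpL_le (ω := ω) he hS2
  have h3 : a * bumpL ω he - a = (a - ofCc μ ω h hc hs) * bumpL ω he +
      (ofCc μ ω h hc hs * bumpL ω he - ofCc μ ω h hc hs) - (a - ofCc μ ω h hc hs) := by
    rw [sub_mul]; abel
  rw [h3]
  calc _ ≤ ‖(a - ofCc μ ω h hc hs) * bumpL ω he +
        (ofCc μ ω h hc hs * bumpL ω he - ofCc μ ω h hc hs)‖ + ‖a - ofCc μ ω h hc hs‖ :=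
        norm_sub_le _ _
    _ ≤ ‖(a - ofCc μ ω h hc hs) * bumpL ω he‖ +
        ‖ofCc μ ω h hc hs * bumpL ω he - ofCc μ ω h hc hs‖ + ‖a - ofCc μ ω h hc hs‖ := by
        gcongr; exact norm_add_le _ _
    _ ≤ ‖a - ofCc μ ω h hc hs‖ * ‖bumpL ω he‖ + ε / 6 + ε / 6 := by
        gcongr; exact norm_mul_le _ _
    _ ≤ ε / 6 * 2 + ε / 6 + ε / 6 := by gcongr
    _ ≤ ε := by linarith

omit [μ.Regular] in
/-- The functional `b ↦ ∫_E b ω dμ`. -/
noncomputable def indL (μ : Measure G) (ω : Weight G) (E : Set G) : StrongDual ℂ (L1 μ ω) :=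
  LinearMap.mkContinuous
    { toFun := fun b => ∫ t in E, b t ∂(ω.measure μ)
      map_add' := by
        intro b c
        rw [← integral_add (L1.integrable b).integrableOn (L1.integrable c).integrableOn]
        refine integral_congr_ae (ae_restrict_of_ae ?_)
        filter_upwards [L1.coeFn_add b c] with t ht
        rw [ht]
      map_smul' := by
        intro c b
        rw [RingHom.id_apply, ← integral_smul]
        refine integral_congr_ae (ae_restrict_of_ae ?_)
        filter_upwards [L1.coeFn_smul c b] with t ht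
        rw [ht, smul_eq_mul] }
    1 (by
      intro b
      rw [one_mul, L1.norm_eq]
      exact (norm_integral_le_integral_norm _).trans
        (setIntegral_le_integral (L1.integrable b).norm (Eventually.of_forall fun t => norm_nonneg _)))

omit [μ.Regular] in
theorem indL_apply (E : Set G) (b : L1 μ ω) : indL μ ω E b = ∫ t in E, b t ∂(ω.measure μ) := rfl

omit [μ.Regular] in
theorem indL_bumpL_zero {E S : Set G} {e : G → ℝ} (hE : MeasurableSet E) (he : Bump μ S e)
    (hd : Disjoint E S) : indL μ ω E (bumpL ω he) = 0 := by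
  rw [indL_apply]
  have h1 : ∫ t in E, (bumpL ω he : L1 μ ω) t ∂(ω.measure μ) = ∫ _ in E, (0 : ℂ) ∂(ω.measure μ) := by
    refine integral_congr_ae ?_
    filter_upwards [ae_restrict_of_ae (coeFn_bumpL (ω := ω) he), ae_restrict_mem hE] with t h1 h2
    rw [h1, he.zero t (Set.disjoint_left.1 hd h2)]
    simp
  rw [h1, integral_zero]

omit [μ.Regular] in
theorem indL_bumpL_ge {E S : Set G} {e : G → ℝ} (hE : MeasurableSet E) (he : Bump μ S e)
    (hSE : S ⊆ E) (hω : ∀ t ∈ S, 1 / 2 ≤ ω t) : 1 / 2 ≤ (indL μ ω E (bumpL ω he)).re := by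
  rw [indL_apply]
  have h1 : ∫ t in E, (bumpL ω he : L1 μ ω) t ∂(ω.measure μ) =
      ((∫ t, ω t * e t ∂μ : ℝ) : ℂ) := by
    have h2 : ∫ t in E, (bumpL ω he : L1 μ ω) t ∂(ω.measure μ) =
        ∫ t in E, (e t : ℂ) ∂(ω.measure μ) :=
      integral_congr_ae (ae_restrict_of_ae (coeFn_bumpL (ω := ω) he))
    rw [h2, ← integral_indicator hE, integral_measure, ← integral_complex_ofReal]
    refine integral_congr_ae (Eventually.of_forall fun t => ?_)
    by_cases ht : t ∈ E
    · simp [Set.indicator_of_mem ht]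
    · simp [Set.indicator_of_notMem ht, he.zero t fun h => ht (hSE h)]
  rw [h1, Complex.ofReal_re]
  have h3 : ∫ s, 1 / 2 * e s ∂μ ≤ ∫ s, ω s * e s ∂μ := by
    refine integral_mono
      ((continuous_const.mul he.cont).integrable_of_hasCompactSupport he.supp.mul_left)
      ((ω.continuous.mul he.cont).integrable_of_hasCompactSupport he.supp.mul_left) fun s => ?_
    by_cases hs : s ∈ S
    · exact mul_le_mul_of_nonneg_right (hω s hs) (he.nonneg s)
    · simp [he.zero s hs]
  refine le_trans (le_of_eq ?_) h3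
  rw [integral_const_mul, he.int, mul_one]

/-- If `G` is not discrete, there is a non-zero `D ∈ L¹(G, ω)''` with `X □ D = 0` for all `X`. -/
theorem nondiscrete_case [(𝓝[≠] (1 : G)).NeBot] (μ : Measure G) [μ.IsHaarMeasure] [μ.Regular]
    (ω : Weight G) :
    ∃ D : SecondDual ℂ (L1 μ ω), D ≠ 0 ∧ ∀ X : SecondDual ℂ (L1 μ ω), X * D = 0 := by
  obtain ⟨E, E', hE, hE', hd, hEi, hEi', hEU, hEU'⟩ := exists_two_open (G := G)
  -- the good neighbourhood
  set W : Set G := {t | 1 / 2 < ω t ∧ ω t < 2} with hW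
  have hWo : IsOpen W := (isOpen_lt continuous_const ω.continuous).inter
    (isOpen_lt ω.continuous continuous_const)
  have hW1 : (1 : G) ∈ W := by
    refine ⟨?_, ?_⟩ <;> rw [ω.one] <;> norm_num
  let S : Set G → Set G := fun U => {t | t ∈ interior U ∩ W ∧ t⁻¹ ∈ interior U ∩ W}
  have hSo : ∀ U, IsOpen (S U) := fun U =>
    (isOpen_interior.inter hWo).inter ((isOpen_interior.inter hWo).preimage continuous_inv)
  have hS1 : ∀ U ∈ 𝓝 (1 : G), S U ∈ 𝓝 (1 : G) := by
    intro U hU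
    refine (hSo U).mem_nhds ⟨⟨mem_interior_iff_mem_nhds.2 hU, hW1⟩, ?_⟩
    rw [inv_one]; exact ⟨mem_interior_iff_mem_nhds.2 hU, hW1⟩
  have hSi : ∀ U, ∀ t ∈ S U, t⁻¹ ∈ S U := fun U t ht => ⟨ht.2, by rw [inv_inv]; exact ht.1⟩
  have key : ∀ (F : Set G), IsOpen F → (∀ x ∈ F, x⁻¹ ∈ F) → (∀ U ∈ 𝓝 (1 : G), (U ∩ F).Nonempty) →
      ∀ U : {U : Set G // U ∈ 𝓝 (1 : G)}, ∃ e, Bump μ (S U.1 ∩ F) e := by
    intro F hF hFi hFU U
    exact exists_bump ((hSo U.1).inter hF) (fun t ht => ⟨hSi _ t ht.1, hFi t ht.2⟩)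
      (hFU _ (hS1 U.1 U.2))
  choose e he using key E hE hEi hEU
  choose e' he' using key E' hE' hEi' hEU'
  -- the filter
  let l : Filter {U : Set G // U ∈ 𝓝 (1 : G)} := comap Subtype.val (𝓝 (1 : G)).smallSets
  have hlV : ∀ V ∈ 𝓝 (1 : G), ∀ᶠ U in l, U.1 ⊆ V := by
    intro V hV
    exact (eventually_smallSets_subset.2 hV).comap _
  have hlne : l.NeBot := by
    rw [comap_neBot_iff]
    intro t ht
    obtain ⟨V, hV, hVt⟩ := (hasBasis_smallSets (𝓝 (1 : G))).mem_iff.1 ht
    exact ⟨⟨V, hV⟩, hVt (Set.Subset.refl V)⟩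
  let 𝓤 : Ultrafilter {U : Set G // U ∈ 𝓝 (1 : G)} := Ultrafilter.of l
  have h𝓤 : (𝓤 : Filter _) ≤ l := Ultrafilter.of_le l
  let b : {U : Set G // U ∈ 𝓝 (1 : G)} → L1 μ ω := fun U => bumpL ω (he U)
  let b' : {U : Set G // U ∈ 𝓝 (1 : G)} → L1 μ ω := fun U => bumpL ω (he' U)
  have hb : ∀ U, ‖b U‖ ≤ 2 := fun U => norm_bumpL_le (he U) fun t ht => ht.1.1.2.2.le
  have hb' : ∀ U, ‖b' U‖ ≤ 2 := fun U => norm_bumpL_le (he' U) fun t ht => ht.1.1.2.2.le
  let y : {U : Set G // U ∈ 𝓝 (1 : G)} → (StrongDual ℂ (L1 μ ω) →L[ℂ] ℂ) :=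
    fun U => NormedSpace.inclusionInDoubleDual ℂ (L1 μ ω) (b U - b' U)
  have hy : ∀ U, ‖y U‖ ≤ 4 := by
    intro U
    refine (NormedSpace.double_dual_bound ℂ (L1 μ ω) _).trans ?_
    refine (norm_sub_le _ _).trans ?_
    have := hb U
    have := hb' U
    linarith
  obtain ⟨D, -, hD⟩ := exists_weakstar_limit y hy 𝓤
  have hyf : ∀ U (f : StrongDual ℂ (L1 μ ω)), y U f = f (b U) - f (b' U) := by
    intro U f
    change f (b U - b' U) = _
    rw [map_sub]
  -- convergence
  have hconv : ∀ (f : StrongDual ℂ (L1 μ ω)) (a : L1 μ ω),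
      Tendsto (fun U => f (a * b U) - f (a * b' U)) 𝓤 (𝓝 0) := by
    intro f a
    have hc1 : Tendsto (fun U => a * b U) 𝓤 (𝓝 a) := by
      rw [Metric.tendsto_nhds]
      intro ε hε
      obtain ⟨U₀, hU₀, hap⟩ := approx a (half_pos hε)
      filter_upwards [h𝓤 (hlV U₀ hU₀)] with U hU
      rw [dist_eq_norm]
      refine (hap _ _ (he U) ?_ fun t ht => ht.1.1.2.2.le).trans_lt (half_lt_self hε)
      exact fun t ht => hU (interior_subset ht.1.1.1)
    have hc2 : Tendsto (fun U => a * b' U) 𝓤 (𝓝 a) := by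
      rw [Metric.tendsto_nhds]
      intro ε hε
      obtain ⟨U₀, hU₀, hap⟩ := approx a (half_pos hε)
      filter_upwards [h𝓤 (hlV U₀ hU₀)] with U hU
      rw [dist_eq_norm]
      refine (hap _ _ (he' U) ?_ fun t ht => ht.1.1.2.2.le).trans_lt (half_lt_self hε)
      exact fun t ht => hU (interior_subset ht.1.1.1)
    have := ((f.continuous.tendsto a).comp hc1).sub ((f.continuous.tendsto a).comp hc2)
    rw [sub_self] at this
    exact this
  have hD0 : ∀ (f : StrongDual ℂ (L1 μ ω)) (a : L1 μ ω), D (dualMul f a) = 0 := by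
    intro f a
    refine tendsto_nhds_unique (hD (dualMul f a)) ?_
    refine (hconv f a).congr fun U => ?_
    rw [hyf, dualMul_apply, dualMul_apply]
  have hDE : 1 / 2 ≤ (D (indL μ ω E)).re := by
    have h1 := (Complex.continuous_re.tendsto _).comp (hD (indL μ ω E))
    refine ge_of_tendsto' h1 fun U => ?_
    rw [Function.comp_apply, hyf]
    have h2 : indL μ ω E (b' U) = 0 := indL_bumpL_zero hE.measurableSet (he' U)
      (hd.mono_right inter_subset_right)
    have h3 : 1 / 2 ≤ (indL μ ω E (b U)).re := indL_bumpL_ge hE.measurableSet (he U)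
      inter_subset_right fun t ht => ht.1.1.2.1.le
    rw [h2, sub_zero]
    exact h3
  let D' : SecondDual ℂ (L1 μ ω) := ⟨D⟩
  have hD' : ∀ f : StrongDual ℂ (L1 μ ω), D' f = D f := fun f => rfl
  refine ⟨D', ?_, ?_⟩
  · intro h0
    have h1 : D' (indL μ ω E) = 0 := by rw [h0]; rfl
    rw [hD'] at h1
    rw [h1] at hDE
    norm_num at hDE
  · intro X
    refine SecondDual.ext fun f => ?_
    rw [mul_apply]
    have h1 : bidualMul D' f = 0 := by
      ext a
      rw [bidualMul_apply, hD', hD0]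
      rfl
    rw [h1, SecondDual.map_zero]
    rfl

end Pool.Agent.H19.Beurling
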